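import Mathlib

set_option autoImplicit false
open Filter Topology

namespace Pool.Agent.Results.MP_ab13d2_an.StarImpliesPositiveStep

/-- `T_z(w) = (z - w) / (1 - conj z * w)`. -/
noncomputable def pseudo (z w : ℂ) : ℂ := (z - w) / (1 - (starRingEnd ℂ) z * w)

/-- The hyperbolic distance `ω(z, w) = (1/2) log ((1 + |T_z(w)|) / (1 - |T_z(w)|))` of the disc. -/
noncomputable def hypDist (z w : ℂ) : ℝ :=
  (1 / 2) * Real.log ((1 + ‖pseudo z w‖) / (1 - ‖pseudo z w‖))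

/-- A non-elliptic semigroup of holomorphic self-maps of the unit disc. -/
structure IsNonEllipticSemigroup (φ : ℝ → ℂ → ℂ) : Prop where
  mapsTo : ∀ t, 0 ≤ t → Set.MapsTo (φ t) (Metric.ball 0 1) (Metric.ball 0 1)
  holo : ∀ t, 0 ≤ t → DifferentiableOn ℂ (φ t) (Metric.ball 0 1)
  zero : ∀ z ∈ Metric.ball (0 : ℂ) 1, φ 0 z = z
  add : ∀ t s, 0 ≤ t → 0 ≤ s → ∀ z ∈ Metric.ball (0 : ℂ) 1, φ (t + s) z = φ t (φ s z)
  cont : ∀ t₀, 0 ≤ t₀ →
    TendstoLocallyUniformlyOn φ (φ t₀) (𝓝[Set.Ici 0] t₀) (Metric.ball 0 1)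
  noFix : ∀ t, 0 < t → ∀ z ∈ Metric.ball (0 : ℂ) 1, φ t z ≠ z

/-- `τ` is the Denjoy-Wolff point of the semigroup `φ`. -/
def IsDenjoyWolff (φ : ℝ → ℂ → ℂ) (τ : ℂ) : Prop :=
  ‖τ‖ = 1 ∧ TendstoLocallyUniformlyOn φ (fun _ => τ) atTop (Metric.ball 0 1)

/-- `h` is a Koenigs function of the semigroup `φ`. -/
structure IsKoenigs (φ : ℝ → ℂ → ℂ) (h : ℂ → ℂ) : Prop where
  holo : DifferentiableOn ℂ h (Metric.ball 0 1)
  inj : Set.InjOn h (Metric.ball 0 1)
  eqn : ∀ t, 0 ≤ t → ∀ z ∈ Metric.ball (0 : ℂ) 1, h (φ t z) = h z + t * Complex.I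

/-- The domain `Ω`, the union over `t ≥ 0` of the sets `h(𝔻) - i t`. -/
def bigDomain (h : ℂ → ℂ) : Set ℂ :=
  {w | ∃ t : ℝ, 0 ≤ t ∧ w + t * Complex.I ∈ h '' Metric.ball 0 1}

/-- A translate of the right or of the left half-plane. -/
def IsHalfPlane (S : Set ℂ) : Prop :=
  ∃ c : ℂ, S = {w | 0 < (w - c).re} ∨ S = {w | (w - c).re < 0}

/-- The tangential speed: the hyperbolic distance from `φ_t(0)` to the diameter `(-1,1)τ`. -/
noncomputable def tangentialSpeed (φ : ℝ → ℂ → ℂ) (τ : ℂ) (t : ℝ) : ℝ :=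
  ⨅ r : Set.Ioo (-1 : ℝ) 1, hypDist (φ t 0) (((r : ℝ) : ℂ) * τ)

/-! ### The pseudo-hyperbolic distance -/

lemma one_sub_conj_mul_ne {z w : ℂ} (hz : ‖z‖ < 1) (hw : ‖w‖ ≤ 1) :
    (1 : ℂ) - (starRingEnd ℂ) z * w ≠ 0 := by
  intro h
  have h1 : (starRingEnd ℂ) z * w = 1 := (sub_eq_zero.mp h).symm
  have h2 : ‖(starRingEnd ℂ) z * w‖ = 1 := by rw [h1]; simp
  rw [norm_mul, RCLike.norm_conj] at h2
  have := norm_nonneg z
  have := norm_nonneg w
  nlinarith

lemma one_sub_sq_pseudo {z w : ℂ} (hz : ‖z‖ < 1) (hw : ‖w‖ < 1) :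
    1 - ‖pseudo z w‖ ^ 2 = (1 - ‖z‖ ^ 2) * (1 - ‖w‖ ^ 2) / ‖1 - (starRingEnd ℂ) z * w‖ ^ 2 := by
  have hne := one_sub_conj_mul_ne hz hw.le
  have hn : ‖1 - (starRingEnd ℂ) z * w‖ ^ 2 ≠ 0 := by
    have := norm_pos_iff.mpr hne
    positivity
  unfold pseudo
  rw [norm_div, div_pow, eq_div_iff hn, sub_mul, div_mul_cancel₀ _ hn, one_mul]
  simp only [Complex.sq_norm, Complex.normSq_apply]
  simp
  ring

lemma one_sub_sq_pos {z : ℂ} (hz : ‖z‖ < 1) : 0 < 1 - ‖z‖ ^ 2 := by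
  have := norm_nonneg z; nlinarith

lemma norm_pseudo_lt {z w : ℂ} (hz : ‖z‖ < 1) (hw : ‖w‖ < 1) : ‖pseudo z w‖ < 1 := by
  have h := one_sub_sq_pseudo hz hw
  have hne := norm_pos_iff.mpr (one_sub_conj_mul_ne hz hw.le)
  have h1 : 0 < 1 - ‖pseudo z w‖ ^ 2 := by
    rw [h]
    have := one_sub_sq_pos hz
    have := one_sub_sq_pos hw
    positivity
  have := norm_nonneg (pseudo z w)
  nlinarith

lemma pseudo_self (z : ℂ) : pseudo z z = 0 := by simp [pseudo]

lemma pseudo_pseudo {z w : ℂ} (hz : ‖z‖ < 1) (hw : ‖w‖ < 1) : pseudo z (pseudo z w) = w := by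
  have h1 := one_sub_conj_mul_ne hz hw.le
  have h2 : (1 : ℂ) - (starRingEnd ℂ) z * z ≠ 0 := one_sub_conj_mul_ne hz hz.le
  have h3 := one_sub_conj_mul_ne hz (norm_pseudo_lt hz hw).le
  unfold pseudo at *
  rw [div_eq_iff h3]
  have hp : (z - w) / (1 - (starRingEnd ℂ) z * w) * (1 - (starRingEnd ℂ) z * w) = z - w :=
    div_mul_cancel₀ _ h1
  linear_combination -hp

lemma differentiableOn_pseudo {z : ℂ} (hz : ‖z‖ < 1) :
    DifferentiableOn ℂ (pseudo z) (Metric.ball 0 1) := by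
  intro w hw
  rw [mem_ball_zero_iff] at hw
  have h1 := one_sub_conj_mul_ne hz hw.le
  unfold pseudo
  apply DifferentiableAt.differentiableWithinAt
  fun_prop (disch := assumption)

/-- The Schwarz-Pick lemma. -/
lemma schwarz_pick {f : ℂ → ℂ} (hf : DifferentiableOn ℂ f (Metric.ball 0 1))
    (hm : Set.MapsTo f (Metric.ball 0 1) (Metric.ball 0 1)) {z w : ℂ}
    (hz : z ∈ Metric.ball (0 : ℂ) 1) (hw : w ∈ Metric.ball (0 : ℂ) 1) :
    ‖pseudo (f z) (f w)‖ ≤ ‖pseudo z w‖ := by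
  have hz' := hz; have hw' := hw
  rw [mem_ball_zero_iff] at hz' hw'
  have hfz : ‖f z‖ < 1 := by simpa using hm hz
  have hm1 : Set.MapsTo (pseudo z) (Metric.ball 0 1) (Metric.ball 0 1) := by
    intro ξ hξ
    rw [mem_ball_zero_iff] at hξ ⊢
    exact norm_pseudo_lt hz' hξ
  have hm2 : Set.MapsTo (pseudo (f z)) (Metric.ball 0 1) (Metric.ball 0 1) := by
    intro ξ hξ
    rw [mem_ball_zero_iff] at hξ ⊢
    exact norm_pseudo_lt hfz hξ
  set g : ℂ → ℂ := fun ξ => pseudo (f z) (f (pseudo z ξ)) with hg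
  have hgd : DifferentiableOn ℂ g (Metric.ball 0 1) :=
    (differentiableOn_pseudo hfz).comp (hf.comp (differentiableOn_pseudo hz') hm1) (hm.comp hm1)
  have hgm : Set.MapsTo g (Metric.ball 0 1) (Metric.closedBall 0 1) := by
    intro ξ hξ
    exact Metric.ball_subset_closedBall (hm2 (hm (hm1 hξ)))
  have hg0 : g 0 = 0 := by
    have : pseudo z 0 = z := by simp [pseudo]
    simp [hg, this, pseudo_self]
  have hξ : ‖pseudo z w‖ < 1 := norm_pseudo_lt hz' hw'
  have key := Complex.norm_le_norm_of_mapsTo_ball hgd hgm hg0 hξ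
  simp only [hg] at key
  rwa [pseudo_pseudo hz' hw'] at key

/-! ### The half-plane coordinate -/

/-- The Cayley transform of the disc onto the right half-plane that sends `τ` to `∞`. -/
noncomputable def K (τ z : ℂ) : ℂ := (τ + z) / (τ - z)

lemma sub_ne {τ z : ℂ} (hτ : ‖τ‖ = 1) (hz : ‖z‖ < 1) : τ - z ≠ 0 := by
  intro h
  rw [sub_eq_zero] at h
  rw [h] at hτ
  linarith

lemma conj_mul_self {τ : ℂ} (hτ : ‖τ‖ = 1) : (starRingEnd ℂ) τ * τ = 1 := by
  rw [← Complex.normSq_eq_conj_mul_self, ← Complex.sq_norm, hτ]; simp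

lemma K_re {τ z : ℂ} (hτ : ‖τ‖ = 1) :
    (K τ z).re = (1 - ‖z‖ ^ 2) / ‖τ - z‖ ^ 2 := by
  have hτ2 : τ.re * τ.re + τ.im * τ.im = 1 := by
    rw [← Complex.normSq_apply, ← Complex.sq_norm, hτ]; norm_num
  unfold K
  rw [Complex.div_re, Complex.sq_norm, Complex.sq_norm, ← add_div]
  congr 1
  simp only [Complex.normSq_apply]
  simp
  nlinarith

lemma K_re_pos {τ z : ℂ} (hτ : ‖τ‖ = 1) (hz : ‖z‖ < 1) : 0 < (K τ z).re := by
  rw [K_re hτ]
  have h1 := norm_pos_iff.mpr (sub_ne hτ hz)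
  have := one_sub_sq_pos hz
  positivity

/-- The pseudo-hyperbolic distance in the half-plane coordinate. -/
lemma norm_K_sub {τ z w : ℂ} (hτ : ‖τ‖ = 1) (hz : ‖z‖ < 1) (hw : ‖w‖ < 1) :
    ‖K τ z - K τ w‖ = ‖pseudo z w‖ * ‖K τ z + (starRingEnd ℂ) (K τ w)‖ := by
  have h1 := sub_ne hτ hz
  have h2 := sub_ne hτ hw
  have h3 : (starRingEnd ℂ) τ - (starRingEnd ℂ) w ≠ 0 := by
    rw [← map_sub]; exact (map_ne_zero _).mpr h2
  have h4 := one_sub_conj_mul_ne hz hw.le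
  have h5 := conj_mul_self hτ
  have e1 : K τ z - K τ w = 2 * τ * (z - w) / ((τ - z) * (τ - w)) := by
    unfold K
    rw [div_sub_div _ _ h1 h2]
    congr 1
    ring
  have e2 : K τ z + (starRingEnd ℂ) (K τ w) =
      2 * (1 - z * (starRingEnd ℂ) w) / ((τ - z) * ((starRingEnd ℂ) τ - (starRingEnd ℂ) w)) := by
    unfold K
    rw [map_div₀, map_add, map_sub, div_add_div _ _ h1 h3]
    congr 1
    linear_combination 2 * h5
  have e3 : ‖1 - z * (starRingEnd ℂ) w‖ = ‖1 - (starRingEnd ℂ) z * w‖ := by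
    rw [← RCLike.norm_conj]; simp
  have e4 : ‖(starRingEnd ℂ) τ - (starRingEnd ℂ) w‖ = ‖τ - w‖ := by
    rw [← map_sub, RCLike.norm_conj]
  rw [e1, e2]
  unfold pseudo
  rw [norm_div, norm_div, norm_div, norm_mul, norm_mul, norm_mul, norm_mul, norm_mul, e3, e4, hτ]
  have n1 : ‖τ - z‖ ≠ 0 := norm_ne_zero_iff.mpr h1
  have n2 : ‖τ - w‖ ≠ 0 := norm_ne_zero_iff.mpr h2
  have n3 : ‖1 - (starRingEnd ℂ) z * w‖ ≠ 0 := norm_ne_zero_iff.mpr h4
  generalize ‖1 - (starRingEnd ℂ) z * w‖ = D at *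
  field_simp

/-- General estimate in the right half-plane. -/
lemma norm_add_conj_le (Z W : ℂ) (hW : 0 ≤ W.re) :
    ‖Z + (starRingEnd ℂ) W‖ ≤ ‖Z - W‖ + 2 * W.re := by
  have e : Z + (starRingEnd ℂ) W = (Z - W) + ((2 * W.re : ℝ) : ℂ) := by
    rw [← Complex.add_conj W]
    ring
  rw [e]
  refine (norm_add_le _ _).trans ?_
  rw [Complex.norm_real, Real.norm_eq_abs, abs_of_nonneg (by positivity)]

lemma norm_add_conj_sq (Z W : ℂ) :
    ‖Z + (starRingEnd ℂ) W‖ ^ 2 = ‖Z - W‖ ^ 2 + 4 * Z.re * W.re := by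
  simp only [Complex.sq_norm, Complex.normSq_apply]
  simp
  ring

lemma norm_add_conj_pos {Z W : ℂ} (hZ : 0 < Z.re) (hW : 0 < W.re) :
    0 < ‖Z + (starRingEnd ℂ) W‖ := by
  have h := norm_add_conj_sq Z W
  have h1 : 0 < ‖Z + (starRingEnd ℂ) W‖ ^ 2 := by rw [h]; positivity
  by_contra hc
  push Not at hc
  have : ‖Z + (starRingEnd ℂ) W‖ = 0 := le_antisymm hc (norm_nonneg _)
  rw [this] at h1
  norm_num at h1

lemma pseudo_comm_norm (z w : ℂ) : ‖pseudo z w‖ = ‖pseudo w z‖ := by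
  unfold pseudo
  rw [norm_div, norm_div, norm_sub_rev]
  congr 1
  rw [← RCLike.norm_conj]
  simp [mul_comm]

/-- One step of the orbit moves the half-plane coordinate by a controlled amount. -/
lemma step_bound {τ z w : ℂ} (hτ : ‖τ‖ = 1) (hz : ‖z‖ < 1) (hw : ‖w‖ < 1) :
    (1 - ‖pseudo z w‖) * ‖K τ w - K τ z‖ ≤ 2 * ‖pseudo z w‖ * (K τ z).re := by
  have h1 := norm_K_sub hτ hw hz
  have h2 := norm_add_conj_le (K τ w) (K τ z) (K_re_pos hτ hz).le
  rw [← pseudo_comm_norm] at h1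
  have h3 := norm_nonneg (pseudo z w)
  nlinarith [mul_le_mul_of_nonneg_left h2 h3]

lemma one_sub_sq_pseudo_K {τ z w : ℂ} (hτ : ‖τ‖ = 1) (hz : ‖z‖ < 1) (hw : ‖w‖ < 1) :
    (1 - ‖pseudo z w‖ ^ 2) * ‖K τ z + (starRingEnd ℂ) (K τ w)‖ ^ 2 =
      4 * (K τ z).re * (K τ w).re := by
  have h1 := norm_K_sub hτ hz hw
  have h2 := norm_add_conj_sq (K τ z) (K τ w)
  have h3 : ‖K τ z - K τ w‖ ^ 2 = ‖pseudo z w‖ ^ 2 * ‖K τ z + (starRingEnd ℂ) (K τ w)‖ ^ 2 := by
    rw [h1]; ring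
  linarith

/-! ### The tangential speed -/

lemma hypDist_nonneg {z w : ℂ} (hz : ‖z‖ < 1) (hw : ‖w‖ < 1) : 0 ≤ hypDist z w := by
  unfold hypDist
  have h1 := norm_pseudo_lt hz hw
  have h0 := norm_nonneg (pseudo z w)
  have : 0 ≤ Real.log ((1 + ‖pseudo z w‖) / (1 - ‖pseudo z w‖)) := by
    apply Real.log_nonneg
    rw [le_div_iff₀ (by linarith)]
    linarith
  positivity

lemma iInf_le {τ z : ℂ} (hτ : ‖τ‖ = 1) (hz : ‖z‖ < 1) :
    (⨅ r : Set.Ioo (-1 : ℝ) 1, hypDist z (((r : ℝ) : ℂ) * τ)) ≤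
      1 / 2 * Real.log (4 * (‖K τ z‖ / (K τ z).re)) := by
  have hX := K_re_pos hτ hz
  set a := ‖K τ z‖ with ha
  have hXa : (K τ z).re ≤ a := Complex.re_le_norm _
  have ha0 : 0 < a := lt_of_lt_of_le hX hXa
  have hmem : (a - 1) / (a + 1) ∈ Set.Ioo (-1 : ℝ) 1 := by
    constructor
    · rw [lt_div_iff₀ (by positivity)]; linarith
    · rw [div_lt_one (by positivity)]; linarith
  have hbdd : BddBelow (Set.range fun r : Set.Ioo (-1 : ℝ) 1 => hypDist z (((r : ℝ) : ℂ) * τ)) := by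
    refine ⟨0, ?_⟩
    rintro _ ⟨⟨r, hr1, hr2⟩, rfl⟩
    apply hypDist_nonneg hz
    rw [norm_mul, hτ, mul_one, Complex.norm_real, Real.norm_eq_abs, abs_lt]
    exact ⟨hr1, hr2⟩
  refine (ciInf_le hbdd ⟨_, hmem⟩).trans ?_
  set w : ℂ := (((a - 1) / (a + 1) : ℝ) : ℂ) * τ with hw
  have hwn : ‖w‖ < 1 := by
    rw [hw, norm_mul, hτ, mul_one, Complex.norm_real, Real.norm_eq_abs, abs_lt]
    exact hmem
  have hKw : K τ w = a := by
    have hτ0 : τ ≠ 0 := by
      intro h; rw [h] at hτ; simp at hτ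
    have ha1 : ((a : ℂ) + 1) ≠ 0 := by
      have : ((a : ℂ) + 1) = ((a + 1 : ℝ) : ℂ) := by push_cast; ring
      rw [this]; exact_mod_cast (by positivity : (0:ℝ) < a + 1).ne'
    unfold K
    rw [div_eq_iff (sub_ne hτ hwn), hw]
    push_cast
    field_simp
    ring
  have h1 := one_sub_sq_pseudo_K hτ hz hwn
  set ρ := ‖pseudo z w‖ with hρ
  have hρ0 : 0 ≤ ρ := norm_nonneg _
  have hρ1 : ρ < 1 := norm_pseudo_lt hz hwn
  rw [hKw] at h1
  have h2 : ‖K τ z + (starRingEnd ℂ) (a : ℂ)‖ ^ 2 = 2 * a ^ 2 + 2 * a * (K τ z).re := by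
    have e1 : a ^ 2 = (K τ z).re * (K τ z).re + (K τ z).im * (K τ z).im := by
      rw [ha, Complex.sq_norm, Complex.normSq_apply]
    rw [Complex.sq_norm, Complex.normSq_apply]
    simp
    nlinarith
  rw [h2, Complex.ofReal_re] at h1
  have h3 : (K τ z).re ≤ (1 - ρ ^ 2) * a := by
    have h4 : (1 - ρ ^ 2) * (a + (K τ z).re) = 2 * (K τ z).re := by
      have : a * ((1 - ρ ^ 2) * (a + (K τ z).re)) = a * (2 * (K τ z).re) := by nlinarith
      exact mul_left_cancel₀ ha0.ne' this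
    have h5 : 0 < 1 - ρ ^ 2 := by nlinarith
    nlinarith
  unfold hypDist
  rw [← hρ]
  refine mul_le_mul_of_nonneg_left (Real.log_le_log (div_pos (by linarith) (by linarith)) ?_)
    (by norm_num)
  rw [div_le_iff₀ (by linarith), mul_assoc, div_mul_eq_mul_div, ← mul_div_assoc, le_div_iff₀ hX]
  have h6 : (1 + ρ) * (K τ z).re ≤ (1 + ρ) * ((1 - ρ ^ 2) * a) :=
    mul_le_mul_of_nonneg_left h3 (by linarith)
  have h7 : (1 + ρ) * (1 + ρ) ≤ 4 := by nlinarith
  have h8 : (1 + ρ) * ((1 - ρ ^ 2) * a) = ((1 + ρ) * (1 + ρ)) * (a * (1 - ρ)) := by ring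
  have h9 : 0 ≤ a * (1 - ρ) := mul_nonneg ha0.le (by linarith)
  nlinarith

/-! ### Orbits -/

lemma orbit_lt {φ : ℝ → ℂ → ℂ} (hφ : IsNonEllipticSemigroup φ) {t : ℝ} (ht : 0 ≤ t) {z : ℂ}
    (hz : ‖z‖ < 1) : ‖φ t z‖ < 1 := by
  have := hφ.mapsTo t ht (mem_ball_zero_iff.mpr hz)
  rwa [mem_ball_zero_iff] at this

lemma norm_one_sub_conj {τ u : ℂ} (hτ : ‖τ‖ = 1) : ‖1 - (starRingEnd ℂ) τ * u‖ = ‖τ - u‖ := by
  have h := conj_mul_self hτ
  have : 1 - (starRingEnd ℂ) τ * u = (starRingEnd ℂ) τ * (τ - u) := by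
    rw [mul_sub, h]
  rw [this, norm_mul, RCLike.norm_conj, hτ, one_mul]

/-- Julia's lemma for the semigroup: horodiscs at `τ` are invariant. -/
lemma julia {φ : ℝ → ℂ → ℂ} {τ : ℂ} (hφ : IsNonEllipticSemigroup φ) (hτ : IsDenjoyWolff φ τ)
    {s : ℝ} (hs : 0 ≤ s) {z : ℂ} (hz : ‖z‖ < 1) : (K τ z).re ≤ (K τ (φ s z)).re := by
  rcases hs.eq_or_lt with h0 | hs'
  · rw [← h0, hφ.zero z (mem_ball_zero_iff.mpr hz)]
  by_contra hcon
  push Not at hcon
  have hsz := orbit_lt hφ hs hz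
  set w : ℕ → ℂ := fun k => φ (k * s) 0 with hw
  have hwlt : ∀ k, ‖w k‖ < 1 := fun k => orbit_lt hφ (by positivity) (by simp)
  have hwsucc : ∀ k, w (k + 1) = φ s (w k) := by
    intro k
    simp only [hw]
    rw [← hφ.add s (k * s) hs (by positivity) 0 (by simp)]
    congr 1
    push_cast
    ring
  have hwlim : Tendsto w atTop (𝓝 τ) := by
    have h1 : Tendsto (fun t => φ t 0) atTop (𝓝 τ) := hτ.2.tendsto_at (by simp)
    refine h1.comp ?_
    exact (tendsto_natCast_atTop_atTop (R := ℝ)).atTop_mul_const hs'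
  have key : ∀ (u : ℂ) (v : ℕ → ℂ), ‖u‖ < 1 → Tendsto v atTop (𝓝 τ) →
      Tendsto (fun k => (1 - ‖u‖ ^ 2) / ‖1 - (starRingEnd ℂ) (v k) * u‖ ^ 2) atTop
        (𝓝 (K τ u).re) := by
    intro u v hu hv
    rw [K_re hτ.1, ← norm_one_sub_conj hτ.1]
    apply Tendsto.div tendsto_const_nhds
    · have hc : Continuous fun v : ℂ => ‖1 - (starRingEnd ℂ) v * u‖ ^ 2 := by fun_prop
      exact (hc.tendsto τ).comp hv
    · rw [norm_one_sub_conj hτ.1]
      have := norm_pos_iff.mpr (sub_ne hτ.1 hu)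
      positivity
  have hA := key (φ s z) (fun k => w (k + 1)) hsz (hwlim.comp (tendsto_add_atTop_nat 1))
  have hB := key z w hz hwlim
  have hAB := hA.eventually_lt hB hcon
  have ha : Tendsto (fun k => 1 - ‖w k‖ ^ 2) atTop (𝓝 0) := by
    have hc : Continuous fun v : ℂ => 1 - ‖v‖ ^ 2 := by fun_prop
    have := (hc.tendsto τ).comp hwlim
    rw [hτ.1] at this
    simpa [Function.comp_def] using this
  obtain ⟨k₀, hk₀⟩ := eventually_atTop.mp hAB
  have hmono : ∀ k, k₀ ≤ k → 1 - ‖w k‖ ^ 2 ≤ 1 - ‖w (k + 1)‖ ^ 2 := by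
    intro k hk
    have h1 := hk₀ k hk
    have h2 := schwarz_pick (hφ.holo s hs) (hφ.mapsTo s hs) (mem_ball_zero_iff.mpr (hwlt k))
      (mem_ball_zero_iff.mpr hz)
    rw [← hwsucc] at h2
    have h3 := one_sub_sq_pseudo (hwlt k) hz
    have h4 := one_sub_sq_pseudo (hwlt (k + 1)) hsz
    rw [mul_div_assoc] at h3 h4
    have h5 : 1 - ‖pseudo (w k) z‖ ^ 2 ≤ 1 - ‖pseudo (w (k + 1)) (φ s z)‖ ^ 2 := by
      have := norm_nonneg (pseudo (w (k + 1)) (φ s z))
      nlinarith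
    rw [h3, h4] at h5
    have ha1 := one_sub_sq_pos (hwlt (k + 1))
    have hB0 : 0 < (1 - ‖z‖ ^ 2) / ‖1 - (starRingEnd ℂ) (w k) * z‖ ^ 2 := by
      have := norm_pos_iff.mpr (one_sub_conj_mul_ne (hwlt k) hz.le)
      have := one_sub_sq_pos hz
      positivity
    by_contra hc
    push Not at hc
    nlinarith [mul_lt_mul_of_pos_right hc hB0, mul_lt_mul_of_pos_left h1 ha1]
  have hge : ∀ k, k₀ ≤ k → 1 - ‖w k₀‖ ^ 2 ≤ 1 - ‖w k‖ ^ 2 := by
    intro k hk
    induction k, hk using Nat.le_induction with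
    | base => exact le_rfl
    | succ k hk ih => exact ih.trans (hmono k hk)
  have := ge_of_tendsto ha (eventually_atTop.mpr ⟨k₀, hge⟩)
  have := one_sub_sq_pos (hwlt k₀)
  linarith

lemma julia_mono {φ : ℝ → ℂ → ℂ} {τ : ℂ} (hφ : IsNonEllipticSemigroup φ) (hτ : IsDenjoyWolff φ τ)
    {s t : ℝ} (hs : 0 ≤ s) (hst : s ≤ t) : (K τ (φ s 0)).re ≤ (K τ (φ t 0)).re := by
  have h := julia hφ hτ (s := t - s) (by linarith) (orbit_lt hφ hs (by simp : ‖(0:ℂ)‖ < 1))
  rw [← hφ.add (t - s) s (by linarith) hs 0 (by simp)] at h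
  simpa using h

lemma one_le_re {φ : ℝ → ℂ → ℂ} {τ : ℂ} (hφ : IsNonEllipticSemigroup φ) (hτ : IsDenjoyWolff φ τ)
    {t : ℝ} (ht : 0 ≤ t) : 1 ≤ (K τ (φ t 0)).re := by
  have h := julia_mono hφ hτ le_rfl ht
  rw [hφ.zero 0 (by simp)] at h
  have : (K τ 0).re = 1 := by rw [K_re hτ.1, sub_zero, hτ.1]; simp
  linarith

/-- The pseudo-hyperbolic size of the `n`-th step of the orbit of `0`. -/
noncomputable def rho (φ : ℝ → ℂ → ℂ) (n : ℕ) : ℝ := ‖pseudo (φ n 0) (φ (n + 1) 0)‖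

lemma rho_nonneg (φ : ℝ → ℂ → ℂ) (n : ℕ) : 0 ≤ rho φ n := norm_nonneg _

lemma rho_lt {φ : ℝ → ℂ → ℂ} (hφ : IsNonEllipticSemigroup φ) (n : ℕ) : rho φ n < 1 :=
  norm_pseudo_lt (orbit_lt hφ (by positivity) (by simp)) (orbit_lt hφ (by positivity) (by simp))

lemma pseudo_orbit_le {φ : ℝ → ℂ → ℂ} (hφ : IsNonEllipticSemigroup φ) {s a b : ℝ} (hs : 0 ≤ s)
    (ha : 0 ≤ a) (hb : 0 ≤ b) :
    ‖pseudo (φ (s + a) 0) (φ (s + b) 0)‖ ≤ ‖pseudo (φ a 0) (φ b 0)‖ := by
  rw [hφ.add s a hs ha 0 (by simp), hφ.add s b hs hb 0 (by simp)]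
  exact schwarz_pick (hφ.holo s hs) (hφ.mapsTo s hs)
    (mem_ball_zero_iff.mpr (orbit_lt hφ ha (by simp)))
    (mem_ball_zero_iff.mpr (orbit_lt hφ hb (by simp)))

lemma rho_le_zero {φ : ℝ → ℂ → ℂ} (hφ : IsNonEllipticSemigroup φ) (n : ℕ) : rho φ n ≤ rho φ 0 := by
  have := pseudo_orbit_le hφ (s := n) (a := 0) (b := 1) (by positivity) le_rfl zero_le_one
  unfold rho
  simpa using this

lemma diff_bound {φ : ℝ → ℂ → ℂ} {τ : ℂ} (hφ : IsNonEllipticSemigroup φ) (hτ : IsDenjoyWolff φ τ)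
    {s : ℝ} (hs : 0 ≤ s) (k : ℕ) :
    ‖K τ (φ (s + (k + 1)) 0) - K τ (φ (s + k) 0)‖ ≤
      2 / (1 - rho φ 0) * (rho φ k * (K τ (φ (s + k) 0)).re) := by
  have h1 := step_bound hτ.1 (orbit_lt hφ (t := s + k) (by positivity) (by simp : ‖(0:ℂ)‖ < 1))
    (orbit_lt hφ (t := s + (k + 1)) (by positivity) (by simp : ‖(0:ℂ)‖ < 1))
  have h2 : ‖pseudo (φ (s + k) 0) (φ (s + (k + 1)) 0)‖ ≤ rho φ k :=
    pseudo_orbit_le hφ hs (by positivity) (by positivity)
  have h3 := rho_le_zero hφ k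
  have h4 := rho_lt hφ 0
  have hX := K_re_pos hτ.1 (orbit_lt hφ (t := s + k) (by positivity) (by simp : ‖(0:ℂ)‖ < 1))
  have hn := norm_nonneg (K τ (φ (s + (k + 1)) 0) - K τ (φ (s + k) 0))
  rw [div_mul_eq_mul_div, le_div_iff₀ (by linarith)]
  set p := ‖pseudo (φ (s + k) 0) (φ (s + (k + 1)) 0)‖ with hp
  have h5 : (1 - rho φ 0) * ‖K τ (φ (s + (k + 1)) 0) - K τ (φ (s + k) 0)‖ ≤
      (1 - p) * ‖K τ (φ (s + (k + 1)) 0) - K τ (φ (s + k) 0)‖ :=
    mul_le_mul_of_nonneg_right (by linarith) hn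
  have h6 : p * (K τ (φ (s + k) 0)).re ≤ rho φ k * (K τ (φ (s + k) 0)).re :=
    mul_le_mul_of_nonneg_right h2 hX.le
  linarith

lemma sum_bound {φ : ℝ → ℂ → ℂ} {τ : ℂ} (hφ : IsNonEllipticSemigroup φ) (hτ : IsDenjoyWolff φ τ)
    {s : ℝ} (hs : 0 ≤ s) (N : ℕ) :
    ‖K τ (φ (s + N) 0) - K τ (φ s 0)‖ ≤
      2 / (1 - rho φ 0) * ∑ k ∈ Finset.range N, rho φ k * (K τ (φ (s + k) 0)).re := by
  induction N with
  | zero => simp
  | succ N ih =>
    rw [Finset.sum_range_succ, mul_add]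
    have h1 := diff_bound hφ hτ hs N
    have h2 : K τ (φ (s + ((N + 1 : ℕ) : ℝ)) 0) - K τ (φ s 0) =
        (K τ (φ (s + (N + 1)) 0) - K τ (φ (s + N) 0)) + (K τ (φ (s + N) 0) - K τ (φ s 0)) := by
      push_cast
      ring
    rw [h2]
    refine (norm_add_le _ _).trans ?_
    linarith


lemma continuousOn_orbit {φ : ℝ → ℂ → ℂ} (hφ : IsNonEllipticSemigroup φ) :
    ContinuousOn (fun s => φ s 0) (Set.Ici 0) := by
  intro s hs
  exact (hφ.cont s hs).tendsto_at (by simp)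

lemma exists_bound {φ : ℝ → ℂ → ℂ} {τ : ℂ} (hφ : IsNonEllipticSemigroup φ)
    (hτ : IsDenjoyWolff φ τ) : ∃ M : ℝ, ∀ s ∈ Set.Icc (0 : ℝ) 1, ‖K τ (φ s 0)‖ ≤ M := by
  apply IsCompact.exists_bound_of_continuousOn isCompact_Icc
  have h1 : ContinuousOn (fun s => φ s 0) (Set.Icc (0 : ℝ) 1) :=
    (continuousOn_orbit hφ).mono Set.Icc_subset_Ici_self
  unfold K
  apply ContinuousOn.div (continuousOn_const.add h1) (continuousOn_const.sub h1)
  intro s hs
  exact sub_ne hτ.1 (orbit_lt hφ hs.1 (by simp))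

/-- The main estimate. -/
lemma tendsto_of_eps {φ : ℝ → ℂ → ℂ} {τ : ℂ} (hφ : IsNonEllipticSemigroup φ)
    (hτ : IsDenjoyWolff φ τ) (ε : ℕ → ℝ) (hε : Tendsto ε atTop (𝓝 0))
    (H : ∀ s : ℝ, 0 ≤ s → ∀ N : ℕ, ∑ k ∈ Finset.range N, rho φ k * (K τ (φ (s + k) 0)).re ≤
      (∑ k ∈ Finset.range N, ε k) * (K τ (φ (s + N) 0)).re) :
    Tendsto (fun t => tangentialSpeed φ τ t - 1 / 2 * Real.log t) atTop atBot := by
  obtain ⟨M, hM⟩ := exists_bound hφ hτ
  have hM0 : 0 ≤ M := (norm_nonneg _).trans (hM 0 (by simp))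
  have hρ := rho_lt hφ 0
  set C : ℝ := 2 / (1 - rho φ 0) with hC
  have hC0 : 0 ≤ C := div_nonneg (by norm_num) (by linarith)
  set E : ℕ → ℝ := fun N => (M + C * ∑ k ∈ Finset.range N, ε k) / N with hE
  have hElim : Tendsto E atTop (𝓝 0) := by
    have h1 := hε.cesaro
    have h2 : Tendsto (fun N : ℕ => M * ((N : ℝ))⁻¹ + C * ((N : ℝ)⁻¹ * ∑ k ∈ Finset.range N, ε k))
        atTop (𝓝 (M * 0 + C * 0)) :=
      (tendsto_inv_atTop_nhds_zero_nat.const_mul M).add (h1.const_mul C)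
    rw [mul_zero, mul_zero, add_zero] at h2
    refine h2.congr ?_
    intro N
    simp only [hE]
    ring
  -- the key inequality
  have key : ∀ t : ℝ, 1 ≤ t → 0 < E ⌊t⌋₊ ∧
      tangentialSpeed φ τ t - 1 / 2 * Real.log t ≤ 1 / 2 * Real.log (4 * E ⌊t⌋₊) := by
    intro t ht
    set N := ⌊t⌋₊ with hN
    have hN1 : 1 ≤ N := by rw [hN]; exact Nat.le_floor (by exact_mod_cast ht)
    have hNpos : (0 : ℝ) < N := by exact_mod_cast hN1
    have hNt : (N : ℝ) ≤ t := Nat.floor_le (by linarith)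
    have htN : t < N + 1 := Nat.lt_floor_add_one t
    have hs0 : 0 ≤ t - N := by linarith
    have hs1 : t - N ≤ 1 := by linarith
    have h1 := sum_bound hφ hτ hs0 N
    have h2 := H (t - N) hs0 N
    have h3 := hM (t - N) ⟨hs0, hs1⟩
    rw [sub_add_cancel] at h1 h2
    have hX1 := one_le_re hφ hτ (t := t) (by linarith)
    set X := (K τ (φ t 0)).re with hX
    have h4 : ‖K τ (φ t 0)‖ ≤ (M + C * ∑ k ∈ Finset.range N, ε k) * X := by
      have h5 : ‖K τ (φ t 0)‖ ≤ ‖K τ (φ t 0) - K τ (φ (t - N) 0)‖ + ‖K τ (φ (t - N) 0)‖ := by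
        have := norm_add_le (K τ (φ t 0) - K τ (φ (t - N) 0)) (K τ (φ (t - N) 0))
        rwa [sub_add_cancel] at this
      have h6 : C * ∑ k ∈ Finset.range N, rho φ k * (K τ (φ ((t - N) + k) 0)).re ≤
          C * ((∑ k ∈ Finset.range N, ε k) * X) := mul_le_mul_of_nonneg_left h2 hC0
      have h7 : M * 1 ≤ M * X := mul_le_mul_of_nonneg_left hX1 hM0
      calc ‖K τ (φ t 0)‖ ≤ C * ((∑ k ∈ Finset.range N, ε k) * X) + M * X := by linarith
        _ = _ := by ring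
    have hD : ‖K τ (φ t 0)‖ / X ≤ N * E N := by
      rw [div_le_iff₀ (by linarith)]
      simp only [hE]
      rw [mul_div_cancel₀ _ hNpos.ne']
      exact h4
    have hD1 : 1 ≤ ‖K τ (φ t 0)‖ / X := by
      rw [le_div_iff₀ (by linarith), one_mul]
      exact Complex.re_le_norm _
    have hEpos : 0 < E N := by
      have : 0 < N * E N := by linarith
      exact (mul_pos_iff_of_pos_left hNpos).mp this
    refine ⟨hEpos, ?_⟩
    have h8 := iInf_le hτ.1 (orbit_lt hφ (t := t) (by linarith) (by simp : ‖(0:ℂ)‖ < 1))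
    have h9 : tangentialSpeed φ τ t ≤ 1 / 2 * Real.log (4 * (‖K τ (φ t 0)‖ / X)) := h8
    have h10 : Real.log (4 * (‖K τ (φ t 0)‖ / X)) ≤ Real.log (t * (4 * E N)) := by
      apply Real.log_le_log (by positivity)
      have : N * E N ≤ t * E N := mul_le_mul_of_nonneg_right hNt hEpos.le
      nlinarith
    have h11 : Real.log (t * (4 * E N)) = Real.log t + Real.log (4 * E N) :=
      Real.log_mul (by linarith) (by positivity)
    linarith
  have h11 : Tendsto (fun t : ℝ => 4 * E ⌊t⌋₊) atTop (𝓝[>] 0) := by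
    apply tendsto_nhdsWithin_of_tendsto_nhds_of_eventually_within
    · have := (hElim.comp (tendsto_nat_floor_atTop (α := ℝ))).const_mul 4
      simpa using this
    · filter_upwards [eventually_ge_atTop (1 : ℝ)] with t ht
      have := (key t ht).1
      exact mul_pos (by norm_num) this
  have h12 : Tendsto (fun t : ℝ => 1 / 2 * Real.log (4 * E ⌊t⌋₊)) atTop atBot :=
    (Real.tendsto_log_nhdsGT_zero.comp h11).const_mul_atBot (by norm_num)
  refine tendsto_atBot_mono' atTop ?_ h12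
  filter_upwards [eventually_ge_atTop (1 : ℝ)] with t ht
  exact (key t ht).2

/-- If the step tends to zero then the tangential speed is `(1/2) log t - (something → ∞)`. -/
lemma tendsto_of_rho {φ : ℝ → ℂ → ℂ} {τ : ℂ} (hφ : IsNonEllipticSemigroup φ)
    (hτ : IsDenjoyWolff φ τ) (hρ : Tendsto (rho φ) atTop (𝓝 0)) :
    Tendsto (fun t => tangentialSpeed φ τ t - 1 / 2 * Real.log t) atTop atBot := by
  apply tendsto_of_eps hφ hτ (rho φ) hρ
  intro s hs N
  rw [Finset.sum_mul]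
  apply Finset.sum_le_sum
  intro k hk
  apply mul_le_mul_of_nonneg_left _ (rho_nonneg φ k)
  apply julia_mono hφ hτ (by positivity)
  have : (k : ℝ) ≤ N := by exact_mod_cast (Finset.mem_range.mp hk).le
  linarith

/-! ### The case of a strip -/

/-- Schwarz-Pick for maps of the disc into the right half-plane. -/
lemma schwarz_pick_half {F : ℂ → ℂ} (hF : DifferentiableOn ℂ F (Metric.ball 0 1))
    (hm : ∀ z ∈ Metric.ball (0 : ℂ) 1, 0 < (F z).re) {z w : ℂ} (hz : ‖z‖ < 1) (hw : ‖w‖ < 1) :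
    ‖F z - F w‖ ≤ ‖pseudo z w‖ * ‖F z + (starRingEnd ℂ) (F w)‖ := by
  have hne : ∀ z ∈ Metric.ball (0 : ℂ) 1, F z + 1 ≠ 0 := by
    intro z hz h
    have := congrArg Complex.re h
    simp at this
    have := hm z hz
    linarith
  set g : ℂ → ℂ := fun z => (F z - 1) / (F z + 1) with hg
  have hgd : DifferentiableOn ℂ g (Metric.ball 0 1) :=
    (hF.sub_const 1).div (hF.add_const 1) hne
  have hgm : Set.MapsTo g (Metric.ball 0 1) (Metric.ball 0 1) := by
    intro z hz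
    have h1 := hm z hz
    rw [mem_ball_zero_iff]
    simp only [hg]
    rw [norm_div, div_lt_one (norm_pos_iff.mpr (hne z hz)), ← sq_lt_sq₀ (norm_nonneg _) (norm_nonneg _),
      Complex.sq_norm, Complex.sq_norm, Complex.normSq_apply, Complex.normSq_apply]
    simp
    nlinarith
  have hK : ∀ z ∈ Metric.ball (0 : ℂ) 1, K 1 (g z) = F z := by
    intro z hz
    have h1 := hne z hz
    have h2 : (1 : ℂ) - g z ≠ 0 := sub_ne (by simp) (by simpa using hgm hz)
    unfold K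
    rw [div_eq_iff h2]
    simp only [hg]
    field_simp
    ring
  have hz' := mem_ball_zero_iff.mpr hz
  have hw' := mem_ball_zero_iff.mpr hw
  have h1 := schwarz_pick hgd hgm hz' hw'
  have h2 := norm_K_sub (τ := 1) (by simp) (mem_ball_zero_iff.mp (hgm hz'))
    (mem_ball_zero_iff.mp (hgm hw'))
  rw [hK z hz', hK w hw'] at h2
  rw [h2]
  exact mul_le_mul_of_nonneg_right h1 (norm_nonneg _)

lemma strip_ratio {φ : ℝ → ℂ → ℂ} {τ : ℂ} (hφ : IsNonEllipticSemigroup φ)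
    (hτ : IsDenjoyWolff φ τ) {h : ℂ → ℂ} (hh : IsKoenigs φ h) {a b : ℝ} (hab : a < b)
    (hre : ∀ z ∈ Metric.ball (0 : ℂ) 1, a < (h z).re ∧ (h z).re < b) {s : ℝ} (hs : 0 ≤ s)
    (j : ℕ) :
    (K τ (φ s 0)).re ≤ ((2 / (1 - rho φ 0) * j + 2) ^ 2 * Real.exp (-(Real.pi / (b - a))) ^ j) *
      (K τ (φ (s + j) 0)).re := by
  set c : ℝ := Real.pi / (b - a) with hc
  have hpi := Real.pi_pos
  have hc0 : 0 < c := div_pos hpi (by linarith)
  set C : ℝ := 2 / (1 - rho φ 0) with hC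
  have hρ := rho_lt hφ 0
  have hC0 : 0 ≤ C := div_nonneg (by norm_num) (by linarith)
  set F : ℂ → ℂ := fun z => Complex.exp (-Complex.I * c * (h z - ((a + b) / 2 : ℝ))) with hF
  have hFd : DifferentiableOn ℂ F (Metric.ball 0 1) := by
    have := hh.holo
    simp only [hF]
    fun_prop
  have hFre : ∀ z ∈ Metric.ball (0 : ℂ) 1, 0 < (F z).re := by
    intro z hz
    obtain ⟨h1, h2⟩ := hre z hz
    simp only [hF]
    rw [Complex.exp_re]
    apply mul_pos (Real.exp_pos _)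
    have e : (-Complex.I * c * (h z - ((a + b) / 2 : ℝ))).im = -(c * ((h z).re - (a + b) / 2)) := by
      simp
    rw [e]
    have h3 : c * (b - a) = Real.pi := div_mul_cancel₀ _ (sub_ne_zero.mpr hab.ne')
    apply Real.cos_pos_of_mem_Ioo
    constructor
    · nlinarith
    · nlinarith
  have hFeq : ∀ t : ℝ, 0 ≤ t → ∀ z ∈ Metric.ball (0 : ℂ) 1, F (φ t z) = Real.exp (c * t) * F z := by
    intro t ht z hz
    simp only [hF]
    rw [hh.eqn t ht z hz, Complex.ofReal_exp, ← Complex.exp_add]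
    congr 1
    push_cast
    ring_nf
    rw [Complex.I_sq]
    ring
  have hz1 := orbit_lt hφ hs (by simp : ‖(0:ℂ)‖ < 1)
  have hz2 := orbit_lt hφ (t := s + j) (by positivity) (by simp : ‖(0:ℂ)‖ < 1)
  have hadd : φ (s + j) 0 = φ j (φ s 0) := by
    rw [add_comm]; exact hφ.add j s (by positivity) hs 0 (by simp)
  have hF2 : F (φ (s + j) 0) = Real.exp (c * j) * F (φ s 0) := by
    rw [hadd]
    exact hFeq j (by positivity) _ (mem_ball_zero_iff.mpr hz1)
  have hsp := schwarz_pick_half hFd hFre hz1 hz2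
  set p := ‖pseudo (φ s 0) (φ (s + j) 0)‖ with hp
  have hp0 : 0 ≤ p := norm_nonneg _
  set x := (F (φ s 0)).re with hx
  have hx0 : 0 < x := hFre _ (mem_ball_zero_iff.mpr hz1)
  set E := Real.exp (c * j) with hE
  have hE0 : 0 < E := Real.exp_pos _
  have hF2re : (F (φ (s + j) 0)).re = E * x := by
    rw [hF2, Complex.re_ofReal_mul]
  have h1 := norm_add_conj_sq (F (φ s 0)) (F (φ (s + j) 0))
  rw [hF2re] at h1
  set B := ‖F (φ s 0) + (starRingEnd ℂ) (F (φ (s + j) 0))‖ with hB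
  have hB1 : E * x ≤ B := by
    have := Complex.re_le_norm (F (φ s 0) + (starRingEnd ℂ) (F (φ (s + j) 0)))
    rw [Complex.add_re, Complex.conj_re, hF2re] at this
    linarith
  have h2 : ‖F (φ s 0) - F (φ (s + j) 0)‖ ^ 2 ≤ (p * B) ^ 2 :=
    pow_le_pow_left₀ (norm_nonneg _) hsp 2
  have hp1 : p < 1 := norm_pseudo_lt hz1 hz2
  have hpp : 0 < 1 - p ^ 2 := by nlinarith
  have h3 : (1 - p ^ 2) * B ^ 2 ≤ 4 * x * (E * x) := by nlinarith
  have h4 : (1 - p ^ 2) * (E * x) ^ 2 ≤ 4 * x * (E * x) := by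
    refine le_trans (mul_le_mul_of_nonneg_left ?_ hpp.le) h3
    exact pow_le_pow_left₀ (by positivity) hB1 2
  have h5 : (1 - p ^ 2) * E ≤ 4 := by
    have h6 : ((1 - p ^ 2) * E) * (E * x ^ 2) ≤ 4 * (E * x ^ 2) := by nlinarith
    exact le_of_mul_le_mul_right h6 (by positivity)
  -- the half-plane coordinate
  have h7 := one_sub_sq_pseudo_K hτ.1 hz1 hz2
  rw [← hp] at h7
  set X₁ := (K τ (φ s 0)).re with hX₁
  set X₂ := (K τ (φ (s + j) 0)).re with hX₂
  have hX₁0 : 0 < X₁ := K_re_pos hτ.1 hz1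
  have hX₂0 : 0 < X₂ := K_re_pos hτ.1 hz2
  have h8 := norm_add_conj_le (K τ (φ s 0)) (K τ (φ (s + j) 0)) hX₂0.le
  have h9 : ‖K τ (φ s 0) - K τ (φ (s + j) 0)‖ ≤ C * j * X₂ := by
    rw [norm_sub_rev]
    refine (sum_bound hφ hτ hs j).trans ?_
    rw [← hC, mul_assoc]
    apply mul_le_mul_of_nonneg_left _ hC0
    calc ∑ k ∈ Finset.range j, rho φ k * (K τ (φ (s + k) 0)).re
        ≤ ∑ k ∈ Finset.range j, 1 * X₂ := by
          apply Finset.sum_le_sum
          intro k hk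
          have hk' : (k : ℝ) ≤ j := by exact_mod_cast (Finset.mem_range.mp hk).le
          apply mul_le_mul (rho_lt hφ k).le _ (K_re_pos hτ.1 (orbit_lt hφ (by positivity) (by simp))).le
            zero_le_one
          exact julia_mono hφ hτ (by positivity) (by linarith)
      _ = j * X₂ := by simp
  have h10 : ‖K τ (φ s 0) + (starRingEnd ℂ) (K τ (φ (s + j) 0))‖ ^ 2 ≤ ((C * j + 2) * X₂) ^ 2 := by
    apply pow_le_pow_left₀ (norm_nonneg _)
    rw [← hX₂] at h8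
    linarith
  have h11 : 4 * X₁ * X₂ ≤ (1 - p ^ 2) * ((C * j + 2) * X₂) ^ 2 := by
    rw [← h7]
    exact mul_le_mul_of_nonneg_left h10 hpp.le
  have h12 : E * X₁ ≤ (C * j + 2) ^ 2 * X₂ := by
    have h13 : (E * X₁) * (4 * X₂) ≤ ((C * j + 2) ^ 2 * X₂) * (4 * X₂) := by
      calc (E * X₁) * (4 * X₂) = E * (4 * X₁ * X₂) := by ring
        _ ≤ E * ((1 - p ^ 2) * ((C * j + 2) * X₂) ^ 2) := mul_le_mul_of_nonneg_left h11 hE0.le
        _ = ((1 - p ^ 2) * E) * ((C * j + 2) * X₂) ^ 2 := by ring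
        _ ≤ 4 * ((C * j + 2) * X₂) ^ 2 := mul_le_mul_of_nonneg_right h5 (by positivity)
        _ = _ := by ring
    exact le_of_mul_le_mul_right h13 (by positivity)
  have h14 : Real.exp (-c) ^ j * E = 1 := by
    rw [hE, ← Real.exp_nat_mul, ← Real.exp_add]
    ring_nf
    simp
  have h15 : Real.exp (-c) ^ j * (E * X₁) ≤ Real.exp (-c) ^ j * ((C * j + 2) ^ 2 * X₂) :=
    mul_le_mul_of_nonneg_left h12 (by positivity)
  calc X₁ = Real.exp (-c) ^ j * (E * X₁) := by rw [← mul_assoc, h14, one_mul]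
    _ ≤ _ := h15
    _ = _ := by ring

lemma tendsto_of_strip {φ : ℝ → ℂ → ℂ} {τ : ℂ} (hφ : IsNonEllipticSemigroup φ)
    (hτ : IsDenjoyWolff φ τ) {h : ℂ → ℂ} (hh : IsKoenigs φ h) {a b : ℝ} (hab : a < b)
    (hre : ∀ z ∈ Metric.ball (0 : ℂ) 1, a < (h z).re ∧ (h z).re < b) :
    Tendsto (fun t => tangentialSpeed φ τ t - 1 / 2 * Real.log t) atTop atBot := by
  set C : ℝ := 2 / (1 - rho φ 0) with hC
  set r : ℝ := Real.exp (-(Real.pi / (b - a))) with hr
  have hpi := Real.pi_pos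
  have hr0 : 0 < r := Real.exp_pos _
  have hr1 : r < 1 := by
    rw [hr, Real.exp_lt_one_iff]
    have : 0 < Real.pi / (b - a) := div_pos hpi (by linarith)
    linarith
  set δ : ℕ → ℝ := fun j => (C * j + 2) ^ 2 * r ^ j with hδ
  have hδlim : Tendsto δ atTop (𝓝 0) := by
    have h2 := tendsto_pow_const_mul_const_pow_of_abs_lt_one 2 (r := r) (by rw [abs_of_pos hr0]; exact hr1)
    have h1 := tendsto_pow_const_mul_const_pow_of_abs_lt_one 1 (r := r) (by rw [abs_of_pos hr0]; exact hr1)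
    have h0 := tendsto_pow_const_mul_const_pow_of_abs_lt_one 0 (r := r) (by rw [abs_of_pos hr0]; exact hr1)
    have h3 := ((h2.const_mul (C ^ 2)).add (h1.const_mul (4 * C))).add (h0.const_mul 4)
    simp only [mul_zero, add_zero] at h3
    refine h3.congr ?_
    intro j
    simp only [hδ]
    ring
  apply tendsto_of_eps hφ hτ (fun k => δ (k + 1)) (hδlim.comp (tendsto_add_atTop_nat 1))
  intro s hs N
  calc ∑ k ∈ Finset.range N, rho φ k * (K τ (φ (s + k) 0)).re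
      ≤ ∑ k ∈ Finset.range N, δ (N - 1 - k + 1) * (K τ (φ (s + N) 0)).re := by
        apply Finset.sum_le_sum
        intro k hk
        have hk' := Finset.mem_range.mp hk
        have h1 := strip_ratio hφ hτ hh hab hre (s := s + k) (by positivity) (N - 1 - k + 1)
        have h2 : s + k + ((N - 1 - k + 1 : ℕ) : ℝ) = s + N := by
          have : k + (N - 1 - k + 1) = N := by omega
          have : (k : ℝ) + ((N - 1 - k + 1 : ℕ) : ℝ) = N := by exact_mod_cast this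
          linarith
        rw [h2] at h1
        refine le_trans ?_ h1
        have h3 := K_re_pos hτ.1 (orbit_lt hφ (t := s + k) (by positivity) (by simp : ‖(0:ℂ)‖ < 1))
        have h4 := (rho_lt hφ k).le
        nlinarith
    _ = (∑ k ∈ Finset.range N, δ (k + 1)) * (K τ (φ (s + N) 0)).re := by
        rw [← Finset.sum_mul, Finset.sum_range_reflect (fun k => δ (k + 1)) N]


/-! ### The inverse of the Koenigs function -/

lemma h_nonconst {h : ℂ → ℂ} (hinj : Set.InjOn h (Metric.ball 0 1)) {z₀ : ℂ}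
    (hz₀ : z₀ ∈ Metric.ball (0 : ℂ) 1) : ¬ ∀ᶠ z in 𝓝 z₀, h z = h z₀ := by
  intro hev
  have h1 : ∀ᶠ z in 𝓝 z₀, z ∈ Metric.ball (0 : ℂ) 1 := Metric.isOpen_ball.mem_nhds hz₀
  have h2 : ∀ᶠ z in 𝓝 z₀, z = z₀ := by
    filter_upwards [hev, h1] with z hz hz'
    exact hinj hz' hz₀ hz
  have h3 : ({z₀} : Set ℂ) ∈ 𝓝 z₀ := h2
  have h4 : IsOpen ({z₀} : Set ℂ) := by
    rw [isOpen_singleton_iff_nhds_eq_pure]
    exact le_antisymm (Filter.le_pure_iff.mpr h3) (pure_le_nhds z₀)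
  exact not_isOpen_singleton z₀ h4

lemma nhds_le_map {h : ℂ → ℂ} (hd : DifferentiableOn ℂ h (Metric.ball 0 1))
    (hinj : Set.InjOn h (Metric.ball 0 1)) {z₀ : ℂ} (hz₀ : z₀ ∈ Metric.ball (0 : ℂ) 1) :
    𝓝 (h z₀) ≤ map h (𝓝 z₀) := by
  have ha : AnalyticAt ℂ h z₀ := hd.analyticAt (Metric.isOpen_ball.mem_nhds hz₀)
  exact ha.eventually_constant_or_nhds_le_map_nhds.resolve_left (h_nonconst hinj hz₀)

lemma isOpen_image {h : ℂ → ℂ} (hd : DifferentiableOn ℂ h (Metric.ball 0 1))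
    (hinj : Set.InjOn h (Metric.ball 0 1)) : IsOpen (h '' Metric.ball 0 1) := by
  rw [isOpen_iff_mem_nhds]
  rintro _ ⟨z, hz, rfl⟩
  exact nhds_le_map hd hinj hz (Filter.image_mem_map (Metric.isOpen_ball.mem_nhds hz))

/-- The inverse of the Koenigs function. -/
noncomputable def inv (h : ℂ → ℂ) : ℂ → ℂ := Function.invFunOn h (Metric.ball 0 1)

lemma inv_mem {h : ℂ → ℂ} {w : ℂ} (hw : w ∈ h '' Metric.ball 0 1) :
    inv h w ∈ Metric.ball (0 : ℂ) 1 := Function.invFunOn_mem hw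

lemma h_inv {h : ℂ → ℂ} {w : ℂ} (hw : w ∈ h '' Metric.ball 0 1) : h (inv h w) = w :=
  Function.invFunOn_eq hw

lemma inv_h {h : ℂ → ℂ} (hinj : Set.InjOn h (Metric.ball 0 1)) {z : ℂ}
    (hz : z ∈ Metric.ball (0 : ℂ) 1) : inv h (h z) = z :=
  hinj (inv_mem ⟨z, hz, rfl⟩) hz (h_inv ⟨z, hz, rfl⟩)

lemma continuousAt_inv {h : ℂ → ℂ} (hd : DifferentiableOn ℂ h (Metric.ball 0 1))
    (hinj : Set.InjOn h (Metric.ball 0 1)) {z₀ : ℂ} (hz₀ : z₀ ∈ Metric.ball (0 : ℂ) 1) :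
    ContinuousAt (inv h) (h z₀) := by
  unfold ContinuousAt
  rw [inv_h hinj hz₀]
  have h1 : Tendsto (inv h) (map h (𝓝 z₀)) (𝓝 z₀) := by
    rw [tendsto_map'_iff]
    refine tendsto_id.congr' ?_
    filter_upwards [Metric.isOpen_ball.mem_nhds hz₀] with z hz
    exact (inv_h hinj hz).symm
  exact h1.mono_left (nhds_le_map hd hinj hz₀)

lemma deriv_ne_zero_punctured {h : ℂ → ℂ} (hd : DifferentiableOn ℂ h (Metric.ball 0 1))
    (hinj : Set.InjOn h (Metric.ball 0 1)) {z₀ : ℂ} (hz₀ : z₀ ∈ Metric.ball (0 : ℂ) 1) :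
    ∀ᶠ z in 𝓝[≠] z₀, deriv h z ≠ 0 := by
  have ha : AnalyticAt ℂ h z₀ := hd.analyticAt (Metric.isOpen_ball.mem_nhds hz₀)
  rcases ha.deriv.eventually_eq_zero_or_eventually_ne_zero with h0 | h0
  · exfalso
    apply h_nonconst hinj hz₀
    obtain ⟨r, hr, hball⟩ := Metric.eventually_nhds_iff_ball.mp
      (h0.and (Metric.isOpen_ball.mem_nhds hz₀ : ∀ᶠ z in 𝓝 z₀, z ∈ Metric.ball (0 : ℂ) 1))
    filter_upwards [Metric.ball_mem_nhds z₀ hr] with z hz
    have hdr : DifferentiableOn ℂ h (Metric.ball z₀ r) := hd.mono fun y hy => (hball y hy).2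
    refine (convex_ball z₀ r).is_const_of_fderivWithin_eq_zero hdr ?_ hz (Metric.mem_ball_self hr)
    intro y hy
    rw [fderivWithin_of_isOpen Metric.isOpen_ball hy]
    ext
    simp [(hball y hy).1]
  · exact h0

lemma differentiableAt_inv {h : ℂ → ℂ} (hd : DifferentiableOn ℂ h (Metric.ball 0 1))
    (hinj : Set.InjOn h (Metric.ball 0 1)) {w : ℂ} (hw : w ∈ h '' Metric.ball 0 1) :
    DifferentiableAt ℂ (inv h) w := by
  obtain ⟨z₀, hz₀, rfl⟩ := hw
  have hV := isOpen_image hd hinj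
  have hc := continuousAt_inv hd hinj hz₀
  apply AnalyticAt.differentiableAt
  apply Complex.analyticAt_of_differentiable_on_punctured_nhds_of_continuousAt _ hc
  have h1 : ∀ᶠ w in 𝓝[≠] (h z₀), w ∈ h '' Metric.ball (0 : ℂ) 1 :=
    nhdsWithin_le_nhds (hV.mem_nhds ⟨z₀, hz₀, rfl⟩)
  have h2 : Tendsto (inv h) (𝓝[≠] (h z₀)) (𝓝[≠] z₀) := by
    apply tendsto_nhdsWithin_of_tendsto_nhds_of_eventually_within
    · have := hc.tendsto
      rw [inv_h hinj hz₀] at this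
      exact this.mono_left nhdsWithin_le_nhds
    · filter_upwards [h1, self_mem_nhdsWithin] with w hw hne heq
      apply hne
      rw [Set.mem_singleton_iff] at heq ⊢
      rw [← heq, h_inv hw]
  filter_upwards [h1, h2.eventually (deriv_ne_zero_punctured hd hinj hz₀)] with w hw hne
  have hz := inv_mem hw
  have hc' := continuousAt_inv hd hinj hz
  rw [h_inv hw] at hc'
  have hder : HasDerivAt h (deriv h (inv h w)) (inv h w) :=
    (hd.differentiableAt (Metric.isOpen_ball.mem_nhds hz)).hasDerivAt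
  refine (HasDerivAt.of_local_left_inverse hc' hder hne ?_).differentiableAt
  filter_upwards [hV.mem_nhds hw] with y hy
  exact h_inv hy

/-! ### The case of the plane -/

lemma image_add {φ : ℝ → ℂ → ℂ} (hφ : IsNonEllipticSemigroup φ) {h : ℂ → ℂ}
    (hh : IsKoenigs φ h) {w : ℂ} (hw : w ∈ h '' Metric.ball 0 1) {t : ℝ} (ht : 0 ≤ t) :
    w + t * Complex.I ∈ h '' Metric.ball 0 1 := by
  obtain ⟨z, hz, rfl⟩ := hw
  exact ⟨φ t z, hφ.mapsTo t ht hz, hh.eqn t ht z hz⟩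

lemma rho_tendsto {φ : ℝ → ℂ → ℂ} (hφ : IsNonEllipticSemigroup φ) {h : ℂ → ℂ}
    (hh : IsKoenigs φ h) (hΩ : bigDomain h = Set.univ) : Tendsto (rho φ) atTop (𝓝 0) := by
  have hV := isOpen_image hh.holo hh.inj
  rw [Metric.tendsto_atTop]
  intro ε hε
  obtain ⟨R, hR1, hRε⟩ : ∃ R : ℝ, 1 < R ∧ 1 / R < ε := by
    refine ⟨max 2 (2 / ε), by simp, ?_⟩
    have : 2 / ε ≤ max 2 (2 / ε) := le_max_right _ _
    have h2 : (0:ℝ) < max 2 (2 / ε) := by positivity
    rw [div_lt_iff₀ h2]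
    rw [div_le_iff₀ hε] at this
    linarith
  have hR0 : 0 < R := by linarith
  -- compactness
  obtain ⟨n₀, hn₀⟩ : ∃ n₀ : ℕ, ∀ w ∈ Metric.closedBall (h 0) R,
      w + ((n₀ : ℝ) : ℂ) * Complex.I ∈ h '' Metric.ball 0 1 := by
    have hcpt : IsCompact (Metric.closedBall (h 0) R) := isCompact_closedBall _ _
    obtain ⟨i, hi⟩ := hcpt.elim_directed_cover
      (fun n : ℕ => {w : ℂ | w + ((n : ℝ) : ℂ) * Complex.I ∈ h '' Metric.ball 0 1})
      (fun n => hV.preimage (by fun_prop)) (by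
        intro w _
        have hw : w ∈ bigDomain h := by rw [hΩ]; trivial
        obtain ⟨t, ht, hwt⟩ := hw
        rw [Set.mem_iUnion]
        obtain ⟨n, hn⟩ := exists_nat_ge t
        refine ⟨n, ?_⟩
        have := image_add hφ hh hwt (t := n - t) (by linarith)
        have e : w + t * Complex.I + ((n - t : ℝ) : ℂ) * Complex.I = w + ((n : ℝ) : ℂ) * Complex.I := by
          push_cast; ring
        rw [e] at this
        exact this) (by
        apply directed_of_isDirected_le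
        intro m n hmn w hw
        have := image_add hφ hh hw (t := (n : ℝ) - m) (by
          have : (m : ℝ) ≤ n := by exact_mod_cast hmn
          linarith)
        have e : w + ((m : ℝ) : ℂ) * Complex.I + (((n : ℝ) - m : ℝ) : ℂ) * Complex.I =
            w + ((n : ℝ) : ℂ) * Complex.I := by
          push_cast; ring
        rw [e] at this
        exact this)
    exact ⟨i, fun w hw => hi hw⟩
  refine ⟨n₀, fun n hn => ?_⟩
  rw [Real.dist_eq, sub_zero, abs_of_nonneg (rho_nonneg φ n)]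
  refine lt_of_le_of_lt ?_ hRε
  have hn' : (n₀ : ℝ) ≤ n := by exact_mod_cast hn
  have hmem : ∀ ξ ∈ Metric.ball (0 : ℂ) 1,
      h 0 + (n : ℝ) * Complex.I + R * ξ ∈ h '' Metric.ball 0 1 := by
    intro ξ hξ
    rw [mem_ball_zero_iff] at hξ
    have h1 := hn₀ (h 0 + R * ξ) (by
      rw [Metric.mem_closedBall, dist_eq_norm, add_sub_cancel_left, norm_mul, Complex.norm_real,
        Real.norm_eq_abs, abs_of_pos hR0]
      nlinarith)
    have h2 := image_add hφ hh h1 (t := (n : ℝ) - n₀) (by linarith)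
    have e : h 0 + R * ξ + ((n₀ : ℝ) : ℂ) * Complex.I + (((n : ℝ) - n₀ : ℝ) : ℂ) * Complex.I =
        h 0 + (n : ℝ) * Complex.I + R * ξ := by
      push_cast; ring
    rwa [e] at h2
  set g : ℂ → ℂ := fun ξ => inv h (h 0 + (n : ℝ) * Complex.I + R * ξ) with hg
  have hgd : DifferentiableOn ℂ g (Metric.ball 0 1) := by
    intro ξ hξ
    apply DifferentiableAt.differentiableWithinAt
    have h1 := differentiableAt_inv hh.holo hh.inj (hmem ξ hξ)
    have h2 : DifferentiableAt ℂ (fun ξ : ℂ => h 0 + (n : ℝ) * Complex.I + R * ξ) ξ := by fun_prop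
    exact DifferentiableAt.comp ξ h1 h2
  have hgm : Set.MapsTo g (Metric.ball 0 1) (Metric.ball 0 1) := fun ξ hξ => inv_mem (hmem ξ hξ)
  have h0mem : (0 : ℂ) ∈ Metric.ball (0 : ℂ) 1 := by simp
  have hw1 : ((1 / R : ℝ) : ℂ) * Complex.I ∈ Metric.ball (0 : ℂ) 1 := by
    rw [mem_ball_zero_iff, norm_mul, Complex.norm_I, mul_one, Complex.norm_real, Real.norm_eq_abs,
      abs_of_pos (by positivity), div_lt_one hR0]
    exact hR1
  have hg0 : g 0 = φ n 0 := by
    simp only [hg]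
    rw [mul_zero, add_zero, ← hh.eqn n (by positivity) 0 h0mem]
    exact inv_h hh.inj (hφ.mapsTo n (by positivity) h0mem)
  have hg1 : g (((1 / R : ℝ) : ℂ) * Complex.I) = φ (n + 1) 0 := by
    simp only [hg]
    have e : h 0 + (n : ℝ) * Complex.I + R * (((1 / R : ℝ) : ℂ) * Complex.I) =
        h (φ (n + 1) 0) := by
      rw [hh.eqn (n + 1) (by positivity) 0 h0mem]
      have : (R : ℂ) ≠ 0 := by exact_mod_cast hR0.ne'
      push_cast
      field_simp
      ring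
    rw [e]
    exact inv_h hh.inj (hφ.mapsTo (n + 1) (by positivity) h0mem)
  have hsp := schwarz_pick hgd hgm h0mem hw1
  rw [hg0, hg1] at hsp
  unfold rho
  refine hsp.trans (le_of_eq ?_)
  unfold pseudo
  rw [map_zero, zero_mul, sub_zero, div_one, zero_sub, norm_neg, norm_mul, Complex.norm_I, mul_one,
    Complex.norm_real, Real.norm_eq_abs, abs_of_pos (by positivity)]

/-! ### The trichotomy -/

lemma mem_bigDomain_iff {φ : ℝ → ℂ → ℂ} (hφ : IsNonEllipticSemigroup φ) {h : ℂ → ℂ}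
    (hh : IsKoenigs φ h) (w : ℂ) :
    w ∈ bigDomain h ↔ ∃ z ∈ Metric.ball (0 : ℂ) 1, (h z).re = w.re := by
  constructor
  · rintro ⟨t, ht, z, hz, hzw⟩
    refine ⟨z, hz, ?_⟩
    rw [hzw]
    simp
  · rintro ⟨z, hz, hre⟩
    set y : ℝ := w.im - (h z).im with hy
    refine ⟨max 0 (-y), le_max_left _ _, ?_⟩
    have h1 : 0 ≤ y + max 0 (-y) := by
      have := le_max_right 0 (-y)
      linarith
    have h2 := image_add hφ hh ⟨z, hz, rfl⟩ h1
    have e : w + ((max 0 (-y) : ℝ) : ℂ) * Complex.I = h z + ((y + max 0 (-y) : ℝ) : ℂ) * Complex.I := by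
      apply Complex.ext
      · simp [hre]
      · simp [hy]
        ring
    rw [e]
    exact h2

/-- Either `Ω` is a half-plane, or the whole plane, or `Re h` is bounded on the disc. -/
lemma trichotomy {φ : ℝ → ℂ → ℂ} (hφ : IsNonEllipticSemigroup φ) {h : ℂ → ℂ}
    (hh : IsKoenigs φ h) :
    IsHalfPlane (bigDomain h) ∨ bigDomain h = Set.univ ∨
      ∃ a b : ℝ, a < b ∧ ∀ z ∈ Metric.ball (0 : ℂ) 1, a < (h z).re ∧ (h z).re < b := by
  set J : Set ℝ := (fun z => (h z).re) '' Metric.ball (0 : ℂ) 1 with hJ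
  have hJopen : IsOpen J := by
    have : J = Complex.re '' (h '' Metric.ball (0 : ℂ) 1) := by
      rw [hJ, Set.image_image]
    rw [this]
    exact Complex.isOpenMap_re _ (isOpen_image hh.holo hh.inj)
  have hJconn : IsPreconnected J := by
    apply IsPreconnected.image (convex_ball (0:ℂ) 1).isPreconnected
    exact Complex.continuous_re.comp_continuousOn hh.holo.continuousOn
  have hJord : J.OrdConnected := hJconn.ordConnected
  have hJne : J.Nonempty := ⟨(h 0).re, 0, by simp, rfl⟩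
  have hΩ : ∀ w : ℂ, w ∈ bigDomain h ↔ w.re ∈ J := by
    intro w
    rw [mem_bigDomain_iff hφ hh]
    rfl
  by_cases hb : BddBelow J
  · by_cases ha : BddAbove J
    · right; right
      obtain ⟨a, ha'⟩ := hb
      obtain ⟨b, hb'⟩ := ha
      refine ⟨a - 1, b + 1, ?_, ?_⟩
      · obtain ⟨x, hx⟩ := hJne
        have := ha' hx
        have := hb' hx
        linarith
      · intro z hz
        have hx : (h z).re ∈ J := ⟨z, hz, rfl⟩
        have := ha' hx
        have := hb' hx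
        constructor <;> linarith
    · left
      refine ⟨((sInf J : ℝ) : ℂ), Or.inl ?_⟩
      ext w
      rw [hΩ, Set.mem_ofPred_eq, Complex.sub_re, Complex.ofReal_re, sub_pos]
      constructor
      · intro hw
        have h1 := csInf_le hb hw
        rcases h1.eq_or_lt with h2 | h2
        · exfalso
          obtain ⟨ε, hε, hball⟩ := Metric.isOpen_iff.mp hJopen _ hw
          have h3 : w.re - ε / 2 ∈ J := hball (by
            rw [Metric.mem_ball, Real.dist_eq, sub_sub_cancel_left, abs_neg, abs_of_pos (by linarith)]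
            linarith)
          have := csInf_le hb h3
          linarith
        · exact h2
      · intro hw
        obtain ⟨x, hx, hxw⟩ := exists_lt_of_csInf_lt hJne hw
        rw [not_bddAbove_iff] at ha
        obtain ⟨y, hy, hwy⟩ := ha w.re
        exact hJord.out hx hy ⟨hxw.le, hwy.le⟩
  · by_cases ha : BddAbove J
    · left
      refine ⟨((sSup J : ℝ) : ℂ), Or.inr ?_⟩
      ext w
      rw [hΩ, Set.mem_ofPred_eq, Complex.sub_re, Complex.ofReal_re, sub_neg]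
      constructor
      · intro hw
        have h1 := le_csSup ha hw
        rcases h1.eq_or_lt with h2 | h2
        · exfalso
          obtain ⟨ε, hε, hball⟩ := Metric.isOpen_iff.mp hJopen _ hw
          have h3 : w.re + ε / 2 ∈ J := hball (by
            rw [Metric.mem_ball, Real.dist_eq, add_sub_cancel_left, abs_of_pos (by linarith)]
            linarith)
          have := le_csSup ha h3
          linarith
        · exact h2
      · intro hw
        obtain ⟨x, hx, hxw⟩ := exists_lt_of_lt_csSup hJne hw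
        rw [not_bddBelow_iff] at hb
        obtain ⟨y, hy, hwy⟩ := hb w.re
        exact hJord.out hy hx ⟨hwy.le, hxw.le⟩
    · right; left
      ext w
      rw [hΩ]
      simp only [Set.mem_univ, iff_true]
      rw [not_bddBelow_iff] at hb
      rw [not_bddAbove_iff] at ha
      obtain ⟨x, hx, hxw⟩ := hb w.re
      obtain ⟨y, hy, hwy⟩ := ha w.re
      exact hJord.out hx hy ⟨hxw.le, hwy.le⟩

/-- Let `φ` be a non-elliptic semigroup with Denjoy-Wolff point `τ` and Koenigs function `h`.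
If the domain `Ω` is not a half-plane (that is, if the semigroup is not parabolic of positive
hyperbolic step) then `v^T(t) - (1/2) log t → -∞`.  In particular `(∗)` forces `Ω` to be a
half-plane. -/
theorem result (φ : ℝ → ℂ → ℂ) (τ : ℂ) (h : ℂ → ℂ) (hφ : IsNonEllipticSemigroup φ)
    (hτ : IsDenjoyWolff φ τ) (hh : IsKoenigs φ h) :
    ((∃ C : ℝ, 0 < C ∧ ∀ t : ℝ, 1 ≤ t → |tangentialSpeed φ τ t - 1 / 2 * Real.log t| < C) →
      IsHalfPlane (bigDomain h)) ∧
    (¬ IsHalfPlane (bigDomain h) →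
      Tendsto (fun t => tangentialSpeed φ τ t - 1 / 2 * Real.log t) atTop atBot) := by
  have h2 : ¬ IsHalfPlane (bigDomain h) →
      Tendsto (fun t => tangentialSpeed φ τ t - 1 / 2 * Real.log t) atTop atBot := by
    intro hn
    rcases trichotomy hφ hh with h1 | h1 | ⟨a, b, hab, h1⟩
    · exact absurd h1 hn
    · exact tendsto_of_rho hφ hτ (rho_tendsto hφ hh h1)
    · exact tendsto_of_strip hφ hτ hh hab h1
  refine ⟨?_, h2⟩
  rintro ⟨C, hC, hb⟩
  by_contra hn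
  have h3 := h2 hn
  obtain ⟨t, ht, ht1⟩ := ((h3.eventually (eventually_le_atBot (-C))).and
    (eventually_ge_atTop (1 : ℝ))).exists
  have h4 := (abs_lt.mp (hb t ht1)).1
  linarith

end Pool.Agent.Results.MP_ab13d2_an.StarImpliesPositiveStep
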