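import Mathlib

set_option autoImplicit false
open Filter Topology

namespace Pool.Agent.Results.MP_ab13d2_an.TangentialSpeed

/-- `T_z(w) = (z - w) / (1 - conj z * w)`. -/
noncomputable def pseudo (z w : ℂ) : ℂ := (z - w) / (1 - (starRingEnd ℂ) z * w)

/-- The hyperbolic distance `ω(z, w) = (1/2) log ((1 + |T_z(w)|) / (1 - |T_z(w)|))` of the disc. -/
noncomputable def hypDist (z w : ℂ) : ℝ :=
  (1 / 2) * Real.log ((1 + ‖pseudo z w‖) / (1 - ‖pseudo z w‖))

/-- A non-elliptic semigroup of holomorphic self-maps of the unit disc. -/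
structure IsNonEllipticSemigroup (φ : ℝ → ℂ → ℂ) : Prop where
  mapsTo : ∀ t, 0 ≤ t → Set.MapsTo (φ t) (Metric.ball 0 1) (Metric.ball 0 1)
  holo : ∀ t, 0 ≤ t → DifferentiableOn ℂ (φ t) (Metric.ball 0 1)
  zero : ∀ z ∈ Metric.ball (0 : ℂ) 1, φ 0 z = z
  add : ∀ t s, 0 ≤ t → 0 ≤ s → ∀ z ∈ Metric.ball (0 : ℂ) 1, φ (t + s) z = φ t (φ s z)
  cont : ∀ t₀, 0 ≤ t₀ →
    TendstoLocallyUniformlyOn φ (φ t₀) (𝓝[Set.Ici 0] t₀) (Metric.ball 0 1)
  noFix : ∀ t, 0 < t → ∀ z ∈ Metric.ball (0 : ℂ) 1, φ t z ≠ z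

/-- `τ` is the Denjoy-Wolff point of the semigroup `φ`. -/
def IsDenjoyWolff (φ : ℝ → ℂ → ℂ) (τ : ℂ) : Prop :=
  ‖τ‖ = 1 ∧ TendstoLocallyUniformlyOn φ (fun _ => τ) atTop (Metric.ball 0 1)

/-- `h` is a Koenigs function of the semigroup `φ`. -/
structure IsKoenigs (φ : ℝ → ℂ → ℂ) (h : ℂ → ℂ) : Prop where
  holo : DifferentiableOn ℂ h (Metric.ball 0 1)
  inj : Set.InjOn h (Metric.ball 0 1)
  eqn : ∀ t, 0 ≤ t → ∀ z ∈ Metric.ball (0 : ℂ) 1, h (φ t z) = h z + t * Complex.I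

/-- The domain `Ω`, the union over `t ≥ 0` of the sets `h(𝔻) - i t`. -/
def bigDomain (h : ℂ → ℂ) : Set ℂ :=
  {w | ∃ t : ℝ, 0 ≤ t ∧ w + t * Complex.I ∈ h '' Metric.ball 0 1}

/-- Parabolic of positive hyperbolic step: `Ω` is a translate of the right or left half-plane. -/
def IsParabolicPositiveStep (φ : ℝ → ℂ → ℂ) : Prop :=
  ∃ h, IsKoenigs φ h ∧ ∃ c : ℂ,
    bigDomain h = {w | 0 < (w - c).re} ∨ bigDomain h = {w | (w - c).re < 0}

/-- The tangential speed: the hyperbolic distance from `φ_t(0)` to the diameter `(-1,1)τ`. -/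
noncomputable def tangentialSpeed (φ : ℝ → ℂ → ℂ) (τ : ℂ) (t : ℝ) : ℝ :=
  ⨅ r : Set.Ioo (-1 : ℝ) 1, hypDist (φ t 0) (((r : ℝ) : ℂ) * τ)

/-! ### The half strip -/

/-- the half strip -/
def Sig : Set ℂ := {ζ | 0 < ζ.re ∧ ζ.re < Real.pi ∧ 0 < ζ.im}

/-- upper half plane -/
def Hup : Set ℂ := {w | 0 < w.im}

lemma isOpen_Sig : IsOpen Sig := by
  unfold Sig
  refine IsOpen.inter (isOpen_lt continuous_const Complex.continuous_re) ?_
  exact IsOpen.inter (isOpen_lt Complex.continuous_re continuous_const)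
    (isOpen_lt continuous_const Complex.continuous_im)

lemma isOpen_Hup : IsOpen Hup := isOpen_lt continuous_const Complex.continuous_im

noncomputable def W (ζ : ℂ) : ℂ := - Complex.cos ζ

lemma W_re (ζ : ℂ) : (W ζ).re = - (Real.cos ζ.re * Real.cosh ζ.im) := by
  unfold W
  rw [Complex.cos_eq ζ]
  simp [← Complex.ofReal_cos, ← Complex.ofReal_cosh, ← Complex.ofReal_sin, ← Complex.ofReal_sinh]

lemma W_im (ζ : ℂ) : (W ζ).im = Real.sin ζ.re * Real.sinh ζ.im := by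
  unfold W
  rw [Complex.cos_eq ζ]
  simp [← Complex.ofReal_cos, ← Complex.ofReal_cosh, ← Complex.ofReal_sin, ← Complex.ofReal_sinh]

lemma W_mapsTo : Set.MapsTo W Sig Hup := by
  rintro ζ ⟨h1, h2, h3⟩
  show 0 < (W ζ).im
  rw [W_im]
  exact mul_pos (Real.sin_pos_of_pos_of_lt_pi h1 h2) (Real.sinh_pos_iff.mpr h3)

lemma W_injOn : Set.InjOn W Sig := by
  rintro ζ ⟨h1, h2, h3⟩ ξ ⟨g1, g2, g3⟩ h
  have hcos : Complex.cos ζ = Complex.cos ξ := by
    unfold W at h; exact neg_injective h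
  obtain ⟨k, hk | hk⟩ := Complex.cos_eq_cos_iff.mp hcos
  · have hre := congrArg Complex.re hk
    have e : (2 * (k : ℂ) * (Real.pi : ℂ) + ζ).re = 2 * k * Real.pi + ζ.re := by
      have : (2 * (k : ℂ) * (Real.pi : ℂ) + ζ) = ((2 * k * Real.pi : ℝ) : ℂ) + ζ := by push_cast; ring
      rw [this, Complex.add_re, Complex.ofReal_re]
    rw [e] at hre
    have hpi := Real.pi_pos
    have hk0 : k = 0 := by
      have h1' : (k : ℝ) < 1 := by
        by_contra hc; push Not at hc; nlinarith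
      have h2' : (-1 : ℝ) < k := by
        by_contra hc; push Not at hc; nlinarith
      have h1'' : k < 1 := by exact_mod_cast h1'
      have h2'' : -1 < k := by exact_mod_cast h2'
      omega
    rw [hk0] at hk
    simpa using hk.symm
  · have him := congrArg Complex.im hk
    have e : (2 * (k : ℂ) * (Real.pi : ℂ) - ζ).im = - ζ.im := by
      have : (2 * (k : ℂ) * (Real.pi : ℂ) - ζ) = ((2 * k * Real.pi : ℝ) : ℂ) - ζ := by push_cast; ring
      rw [this, Complex.sub_im, Complex.ofReal_im, zero_sub]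
    rw [e] at him
    linarith

lemma W_surjOn : Set.SurjOn W Sig Hup := by
  intro w hw
  obtain ⟨ζ, hζ⟩ := Complex.cos_surjective (-w)
  have hpi := Real.pi_pos
  set k := toIocDiv Real.two_pi_pos (-Real.pi) ζ.re with hk
  have hmem := sub_toIocDiv_zsmul_mem_Ioc Real.two_pi_pos (-Real.pi) ζ.re
  rw [← hk, zsmul_eq_mul] at hmem
  have hcosk : Complex.cos (ζ - (k : ℂ) * (2 * Real.pi)) = -w := by
    rw [Complex.cos_sub_int_mul_two_pi, hζ]
  have hkre : (ζ - (k : ℂ) * (2 * Real.pi)).re = ζ.re - k * (2 * Real.pi) := by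
    have : (k : ℂ) * (2 * (Real.pi : ℂ)) = ((k * (2 * Real.pi) : ℝ) : ℂ) := by push_cast; ring
    rw [this, Complex.sub_re, Complex.ofReal_re]
  obtain ⟨ξ, h0, h1, h2⟩ : ∃ ξ : ℂ, 0 ≤ ξ.re ∧ ξ.re ≤ Real.pi ∧ Complex.cos ξ = -w := by
    rcases le_or_gt 0 (ζ.re - k * (2 * Real.pi)) with h | h
    · refine ⟨ζ - (k : ℂ) * (2 * Real.pi), by rw [hkre]; exact h, ?_, hcosk⟩
      rw [hkre]; linarith [hmem.2]
    · refine ⟨-(ζ - (k : ℂ) * (2 * Real.pi)), ?_, ?_, ?_⟩
      · rw [Complex.neg_re, hkre]; linarith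
      · rw [Complex.neg_re, hkre]; linarith [hmem.1]
      · rw [Complex.cos_neg]; exact hcosk
  have hW : W ξ = w := by unfold W; rw [h2, neg_neg]
  have him : 0 < Real.sin ξ.re * Real.sinh ξ.im := by
    rw [← W_im, hW]; exact hw
  have hs : 0 ≤ Real.sin ξ.re := Real.sin_nonneg_of_nonneg_of_le_pi h0 h1
  have hs' : 0 < Real.sin ξ.re := by
    rcases hs.eq_or_lt with h | h
    · rw [← h] at him; simp at him
    · exact h
  have hsh : 0 < Real.sinh ξ.im := by
    by_contra hc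
    push Not at hc
    nlinarith
  refine ⟨ξ, ⟨?_, ?_, Real.sinh_pos_iff.mp hsh⟩, hW⟩
  · rcases h0.eq_or_lt with h | h
    · rw [← h] at hs'; simp at hs'
    · exact h
  · rcases h1.eq_or_lt with h | h
    · rw [h] at hs'; simp at hs'
    · exact h

/-- inverse of `W` -/
noncomputable def A : ℂ → ℂ := Function.invFunOn W Sig

lemma A_mem {w : ℂ} (hw : w ∈ Hup) : A w ∈ Sig := Function.invFunOn_mem (W_surjOn hw)

lemma W_A {w : ℂ} (hw : w ∈ Hup) : W (A w) = w := Function.invFunOn_eq (W_surjOn hw)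

lemma A_W {ζ : ℂ} (hζ : ζ ∈ Sig) : A (W ζ) = ζ :=
  W_injOn (A_mem (W_mapsTo hζ)) hζ (W_A (W_mapsTo hζ))

lemma sin_ne_zero {ζ : ℂ} (hζ : ζ ∈ Sig) : Complex.sin ζ ≠ 0 := by
  obtain ⟨h1, h2, h3⟩ := hζ
  intro h
  obtain ⟨k, hk⟩ := Complex.sin_eq_zero_iff.mp h
  rw [hk] at h3
  have : (k : ℂ) * (Real.pi : ℂ) = ((k * Real.pi : ℝ) : ℂ) := by push_cast; ring
  rw [this, Complex.ofReal_im] at h3
  exact lt_irrefl _ h3

lemma hasStrictDerivAt_W (ζ : ℂ) : HasStrictDerivAt W (Complex.sin ζ) ζ := by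
  have := (Complex.hasStrictDerivAt_cos ζ).neg
  rw [neg_neg] at this
  exact this

lemma hasDerivAt_A {w : ℂ} (hw : w ∈ Hup) : HasDerivAt A (Complex.sin (A w))⁻¹ w := by
  have hs := hasStrictDerivAt_W (A w)
  have hne := sin_ne_zero (A_mem hw)
  have hL := (hs.to_localInverse hne).hasDerivAt
  have hr := hs.eventually_right_inverse hne
  have hL0 := (hs.eventually_left_inverse hne).self_of_nhds
  have hLc := hL.continuousAt
  rw [W_A hw] at hL hr hLc hL0
  have hmem : ∀ᶠ v in 𝓝 w, hs.localInverse W (Complex.sin (A w)) (A w) hne v ∈ Sig := by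
    apply hLc.eventually_mem
    rw [hL0]
    exact isOpen_Sig.mem_nhds (A_mem hw)
  have hHup : ∀ᶠ v in 𝓝 w, v ∈ Hup := isOpen_Hup.mem_nhds hw
  apply hL.congr_of_eventuallyEq
  filter_upwards [hr, hmem, hHup] with v h1 h2 h3
  exact W_injOn (A_mem h3) h2 ((W_A h3).trans h1.symm)

/-! ### Cayley transform -/

noncomputable def Cay (w : ℂ) : ℂ := (w - Complex.I) / (w + Complex.I)

noncomputable def CayInv (z : ℂ) : ℂ := Complex.I * (1 + z) / (1 - z)

lemma Hup_add_ne {w : ℂ} (hw : w ∈ Hup) : w + Complex.I ≠ 0 := by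
  intro h
  have := congrArg Complex.im h
  simp at this
  have hw' : 0 < w.im := hw
  linarith

lemma ball_sub_ne {z : ℂ} (hz : z ∈ Metric.ball (0:ℂ) 1) : (1 : ℂ) - z ≠ 0 := by
  intro h
  have : z = 1 := (sub_eq_zero.mp h).symm
  rw [this] at hz
  simp at hz

lemma Cay_mem {w : ℂ} (hw : w ∈ Hup) : Cay w ∈ Metric.ball (0:ℂ) 1 := by
  have hw' : 0 < w.im := hw
  rw [mem_ball_zero_iff, Cay, norm_div, div_lt_one (norm_pos_iff.mpr (Hup_add_ne hw))]
  rw [← sq_lt_sq₀ (norm_nonneg _) (norm_nonneg _), Complex.sq_norm, Complex.sq_norm,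
    Complex.normSq_apply, Complex.normSq_apply]
  simp
  nlinarith

lemma CayInv_mem {z : ℂ} (hz : z ∈ Metric.ball (0:ℂ) 1) : CayInv z ∈ Hup := by
  have hne := ball_sub_ne hz
  show 0 < (CayInv z).im
  have hz' : Complex.normSq z < 1 := by
    rw [mem_ball_zero_iff] at hz
    rw [← Complex.sq_norm]
    have := norm_nonneg z
    nlinarith
  rw [Complex.normSq_apply] at hz'
  have hpos : 0 < Complex.normSq (1 - z) := Complex.normSq_pos.mpr hne
  have : (CayInv z).im = (1 - (z.re * z.re + z.im * z.im)) / Complex.normSq (1 - z) := by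
    unfold CayInv
    rw [Complex.div_im]
    simp
    field_simp
    ring
  rw [this]
  apply div_pos _ hpos
  linarith

lemma Cay_CayInv {z : ℂ} (hz : z ∈ Metric.ball (0:ℂ) 1) : Cay (CayInv z) = z := by
  have hne := ball_sub_ne hz
  unfold Cay CayInv
  have h1 : Complex.I * (1 + z) / (1 - z) - Complex.I = 2 * Complex.I * z / (1 - z) := by
    field_simp; ring
  have h2 : Complex.I * (1 + z) / (1 - z) + Complex.I = 2 * Complex.I / (1 - z) := by
    field_simp; ring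
  rw [h1, h2]
  field_simp

lemma CayInv_Cay {w : ℂ} (hw : w ∈ Hup) : CayInv (Cay w) = w := by
  have hne := Hup_add_ne hw
  unfold Cay CayInv
  have h1 : 1 + (w - Complex.I) / (w + Complex.I) = 2 * w / (w + Complex.I) := by
    field_simp; ring
  have h2 : 1 - (w - Complex.I) / (w + Complex.I) = 2 * Complex.I / (w + Complex.I) := by
    field_simp; ring
  rw [h1, h2]
  have := Complex.I_ne_zero
  field_simp

/-! ### The maps between the disc and the half strip -/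

noncomputable def G (ζ : ℂ) : ℂ := Cay (W ζ)

noncomputable def F (z : ℂ) : ℂ := A (CayInv z)

lemma G_mem {ζ : ℂ} (hζ : ζ ∈ Sig) : G ζ ∈ Metric.ball (0:ℂ) 1 := Cay_mem (W_mapsTo hζ)

lemma F_mem {z : ℂ} (hz : z ∈ Metric.ball (0:ℂ) 1) : F z ∈ Sig := A_mem (CayInv_mem hz)

lemma G_F {z : ℂ} (hz : z ∈ Metric.ball (0:ℂ) 1) : G (F z) = z := by
  unfold G F
  rw [W_A (CayInv_mem hz), Cay_CayInv hz]

lemma F_G {ζ : ℂ} (hζ : ζ ∈ Sig) : F (G ζ) = ζ := by
  unfold G F
  rw [CayInv_Cay (W_mapsTo hζ), A_W hζ]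

lemma differentiableAt_G {ζ : ℂ} (hζ : ζ ∈ Sig) : DifferentiableAt ℂ G ζ := by
  have h1 : DifferentiableAt ℂ W ζ := (hasStrictDerivAt_W ζ).hasDerivAt.differentiableAt
  have hne := Hup_add_ne (W_mapsTo hζ)
  unfold G Cay
  exact (h1.sub_const _).div (h1.add_const _) hne

lemma differentiableAt_F {z : ℂ} (hz : z ∈ Metric.ball (0:ℂ) 1) : DifferentiableAt ℂ F z := by
  have h1 : DifferentiableAt ℂ CayInv z := by
    unfold CayInv
    have := ball_sub_ne hz
    fun_prop (disch := assumption)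
  exact ((hasDerivAt_A (CayInv_mem hz)).differentiableAt).comp z h1

/-! ### The flow -/

noncomputable def Phi (t : ℝ) (ζ : ℂ) : ℂ := (ζ ^ 2 - t) ^ (2⁻¹ : ℂ)

lemma Phi_sq (t : ℝ) (ζ : ℂ) : Phi t ζ ^ 2 = ζ ^ 2 - t := by
  have := Complex.cpow_nat_inv_pow (ζ ^ 2 - t) (n := 2) two_ne_zero
  unfold Phi
  exact_mod_cast this

lemma Sig_sq_im {ζ : ℂ} (hζ : ζ ∈ Sig) (t : ℝ) : 0 < (ζ ^ 2 - t).im := by
  obtain ⟨h1, h2, h3⟩ := hζ
  have : (ζ ^ 2 - (t:ℂ)).im = 2 * ζ.re * ζ.im := by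
    rw [sq, Complex.sub_im, Complex.mul_im, Complex.ofReal_im]; ring
  rw [this]; positivity

lemma Phi_re_pos {ζ : ℂ} (hζ : ζ ∈ Sig) (t : ℝ) : 0 < (Phi t ζ).re := by
  unfold Phi
  rw [Complex.cpow_inv_two_re]
  apply Real.sqrt_pos.mpr
  have h := Sig_sq_im hζ t
  have := Complex.abs_re_lt_norm.mpr h.ne'
  have := neg_abs_le (ζ ^ 2 - (t:ℂ)).re
  linarith

lemma Phi_im_pos {ζ : ℂ} (hζ : ζ ∈ Sig) (t : ℝ) : 0 < (Phi t ζ).im := by
  unfold Phi
  have h := Sig_sq_im hζ t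
  rw [Complex.cpow_inv_two_im_eq_sqrt h.le]
  apply Real.sqrt_pos.mpr
  have := Complex.abs_re_lt_norm.mpr h.ne'
  have := le_abs_self (ζ ^ 2 - (t:ℂ)).re
  linarith

lemma Phi_re_le {ζ : ℂ} (hζ : ζ ∈ Sig) {t : ℝ} (ht : 0 ≤ t) : (Phi t ζ).re ≤ ζ.re := by
  have h0 : ζ = (ζ ^ 2) ^ (2⁻¹ : ℂ) := (Complex.sq_cpow_two_inv hζ.1).symm
  have h1 : ζ.re = √((‖ζ ^ 2‖ + (ζ ^ 2).re) / 2) := by
    conv_lhs => rw [h0]
    rw [Complex.cpow_inv_two_re]
  rw [h1]
  unfold Phi
  rw [Complex.cpow_inv_two_re]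
  apply Real.sqrt_le_sqrt
  have h2 : ‖ζ ^ 2 - (t:ℂ)‖ ≤ ‖ζ ^ 2‖ + t := by
    refine (norm_sub_le _ _).trans ?_
    rw [Complex.norm_real, Real.norm_of_nonneg ht]
  have h3 : (ζ ^ 2 - (t:ℂ)).re = (ζ ^ 2).re - t := by simp
  rw [h3]
  linarith

lemma Phi_mem {ζ : ℂ} (hζ : ζ ∈ Sig) {t : ℝ} (ht : 0 ≤ t) : Phi t ζ ∈ Sig :=
  ⟨Phi_re_pos hζ t, (Phi_re_le hζ ht).trans_lt hζ.2.1, Phi_im_pos hζ t⟩

lemma Phi_zero {ζ : ℂ} (hζ : ζ ∈ Sig) : Phi 0 ζ = ζ := by
  unfold Phi
  rw [Complex.ofReal_zero, sub_zero, Complex.sq_cpow_two_inv hζ.1]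

lemma Phi_add (t s : ℝ) (ζ : ℂ) : Phi (t + s) ζ = Phi t (Phi s ζ) := by
  conv_rhs => unfold Phi
  rw [show ((ζ ^ 2 - (s:ℂ)) ^ (2⁻¹ : ℂ)) = Phi s ζ from rfl, Phi_sq]
  unfold Phi
  congr 1
  push_cast; ring

lemma continuousAt_Phi {ζ : ℂ} (hζ : ζ ∈ Sig) (t : ℝ) :
    ContinuousAt (fun p : ℝ × ℂ => Phi p.1 p.2) (t, ζ) := by
  unfold Phi
  apply ContinuousAt.cpow
  · fun_prop
  · fun_prop
  · exact Or.inr (Sig_sq_im hζ t).ne'

lemma differentiableAt_Phi {ζ : ℂ} (hζ : ζ ∈ Sig) (t : ℝ) : DifferentiableAt ℂ (Phi t) ζ := by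
  unfold Phi
  apply DifferentiableAt.cpow
  · fun_prop
  · fun_prop
  · exact Or.inr (Sig_sq_im hζ t).ne'

/-! ### The semigroup -/

noncomputable def phi (t : ℝ) (z : ℂ) : ℂ := G (Phi t (F z))

lemma continuousAt_phi {z : ℂ} (hz : z ∈ Metric.ball (0:ℂ) 1) {t : ℝ} (ht : 0 ≤ t) :
    ContinuousAt (fun p : ℝ × ℂ => phi p.1 p.2) (t, z) := by
  have hF : ContinuousAt (fun p : ℝ × ℂ => ((p.1, F p.2) : ℝ × ℂ)) (t, z) := by
    apply ContinuousAt.prodMk continuousAt_fst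
    exact ContinuousAt.comp (f := fun p : ℝ × ℂ => p.2) (g := F)
      (differentiableAt_F hz).continuousAt continuousAt_snd
  have hP : ContinuousAt (fun p : ℝ × ℂ => Phi p.1 (F p.2)) (t, z) :=
    ContinuousAt.comp (f := fun p : ℝ × ℂ => ((p.1, F p.2) : ℝ × ℂ))
      (g := fun p : ℝ × ℂ => Phi p.1 p.2) (continuousAt_Phi (F_mem hz) t) hF
  exact ContinuousAt.comp (f := fun p : ℝ × ℂ => Phi p.1 (F p.2)) (g := G)
    (differentiableAt_G (Phi_mem (F_mem hz) ht)).continuousAt hP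

lemma semigroup_phi : IsNonEllipticSemigroup phi where
  mapsTo := fun t ht z hz => G_mem (Phi_mem (F_mem hz) ht)
  holo := fun t ht z hz =>
    (((differentiableAt_G (Phi_mem (F_mem hz) ht)).comp (F z)
      (differentiableAt_Phi (F_mem hz) t)).comp z (differentiableAt_F hz)).differentiableWithinAt
  zero := fun z hz => by unfold phi; rw [Phi_zero (F_mem hz), G_F hz]
  add := fun t s ht hs z hz => by
    unfold phi
    rw [F_G (Phi_mem (F_mem hz) hs), Phi_add]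
  cont := by
    intro t₀ ht₀
    rw [tendstoLocallyUniformlyOn_iff_forall_tendsto]
    intro z hz
    have hc := continuousAt_phi hz ht₀
    have h1 : Tendsto (fun y : ℝ × ℂ => phi t₀ y.2) (𝓝[Set.Ici 0] t₀ ×ˢ 𝓝[Metric.ball 0 1] z)
        (𝓝 (phi t₀ z)) := by
      have : ContinuousAt (fun y : ℝ × ℂ => phi t₀ y.2) (t₀, z) := by
        have hg : ContinuousAt (fun y : ℝ × ℂ => ((t₀, y.2) : ℝ × ℂ)) (t₀, z) := by fun_prop
        exact ContinuousAt.comp (f := fun y : ℝ × ℂ => ((t₀, y.2) : ℝ × ℂ))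
          (g := fun p : ℝ × ℂ => phi p.1 p.2) hc hg
      refine this.tendsto.mono_left ?_
      rw [nhds_prod_eq]
      exact Filter.prod_mono nhdsWithin_le_nhds nhdsWithin_le_nhds
    have h2 : Tendsto (fun y : ℝ × ℂ => phi y.1 y.2) (𝓝[Set.Ici 0] t₀ ×ˢ 𝓝[Metric.ball 0 1] z)
        (𝓝 (phi t₀ z)) := by
      refine hc.tendsto.mono_left ?_
      rw [nhds_prod_eq]
      exact Filter.prod_mono nhdsWithin_le_nhds nhdsWithin_le_nhds
    have h3 := h1.prodMk_nhds h2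
    exact h3.mono_right (nhds_le_uniformity _)
  noFix := by
    intro t ht z hz h
    unfold phi at h
    have h1 : Phi t (F z) = F z := by
      rw [← F_G (Phi_mem (F_mem hz) ht.le), h]
    have h2 := Phi_sq t (F z)
    rw [h1] at h2
    have h3 : (t : ℂ) = 0 := by linear_combination h2
    have : t = 0 := by exact_mod_cast h3
    exact ht.ne' this


/-! ### The Koenigs function -/

noncomputable def hK (z : ℂ) : ℂ := - Complex.I * F z ^ 2

lemma koenigs_phi : IsKoenigs phi hK where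
  holo := fun z hz => by
    unfold hK
    exact (((differentiableAt_F hz).pow 2).const_mul _).differentiableWithinAt
  inj := by
    intro z hz w hw h
    unfold hK at h
    have h1 : F z ^ 2 = F w ^ 2 := mul_left_cancel₀ (neg_ne_zero.mpr Complex.I_ne_zero) h
    have h2 : F z = F w := by
      rw [← Complex.sq_cpow_two_inv (F_mem hz).1, ← Complex.sq_cpow_two_inv (F_mem hw).1, h1]
    rw [← G_F hz, ← G_F hw, h2]
  eqn := by
    intro t ht z hz
    unfold hK phi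
    rw [F_G (Phi_mem (F_mem hz) ht), Phi_sq]
    ring

lemma bigDomain_hK : bigDomain hK = {w | 0 < (w - 0).re} := by
  ext w
  simp only [bigDomain, Set.mem_ofPred_eq, Set.mem_image, sub_zero]
  constructor
  · rintro ⟨t, ht, z, hz, h⟩
    have hre := congrArg Complex.re h
    obtain ⟨h1, h2, h3⟩ := F_mem hz
    have e : (hK z).re = 2 * (F z).re * (F z).im := by
      unfold hK
      simp [sq]
      ring
    rw [e] at hre
    have e2 : (w + (t:ℂ) * Complex.I).re = w.re := by simp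
    rw [e2] at hre
    rw [← hre]
    positivity
  · intro hw
    set t := max 0 (w.re ^ 2 + 1 - w.im) with ht
    have ht0 : 0 ≤ t := le_max_left _ _
    have ht1 : w.re ^ 2 + 1 - w.im ≤ t := le_max_right _ _
    set u : ℂ := Complex.I * w - t with hu
    have hure : u.re = - w.im - t := by simp [hu]
    have huim : u.im = w.re := by simp [hu]
    have hune : u.im ≠ 0 := by rw [huim]; exact hw.ne'
    set ζ := u ^ (2⁻¹ : ℂ) with hζ
    have hζ2 : ζ ^ 2 = u := by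
      have := Complex.cpow_nat_inv_pow u (n := 2) two_ne_zero
      rw [hζ]
      exact_mod_cast this
    have hlt := Complex.abs_re_lt_norm.mpr hune
    have hre : 0 < ζ.re := by
      rw [hζ, Complex.cpow_inv_two_re]
      apply Real.sqrt_pos.mpr
      have := neg_abs_le u.re
      linarith
    have him : ζ.im = √((‖u‖ - u.re) / 2) := by
      rw [hζ, Complex.cpow_inv_two_im_eq_sqrt (by rw [huim]; exact hw.le)]
    have him2 : w.re ^ 2 + 1 ≤ ζ.im ^ 2 := by
      rw [him, Real.sq_sqrt]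
      · have := neg_abs_le u.re
        have : -u.re ≤ ‖u‖ := by linarith
        linarith
      · have := le_abs_self u.re
        linarith
    have him0 : 0 < ζ.im := by
      rw [him]
      apply Real.sqrt_pos.mpr
      have := le_abs_self u.re
      linarith
    have hprod : 2 * ζ.re * ζ.im = w.re := by
      rw [← huim, ← hζ2, sq, Complex.mul_im]; ring
    have hre2 : ζ.re < Real.pi := by
      have hpi := Real.pi_gt_three
      by_contra hc
      push Not at hc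
      have h3 : 3 < ζ.re := by linarith
      have : 6 * ζ.im < w.re := by nlinarith
      nlinarith
    have hmem : ζ ∈ Sig := ⟨hre, hre2, him0⟩
    refine ⟨t, ht0, G ζ, G_mem hmem, ?_⟩
    unfold hK
    rw [F_G hmem, hζ2, hu]
    linear_combination -w * Complex.I_sq

lemma parabolic_phi : IsParabolicPositiveStep phi :=
  ⟨hK, koenigs_phi, 0, Or.inl bigDomain_hK⟩

/-! ### The Denjoy-Wolff point -/

lemma norm_W_sq (ζ : ℂ) : ‖W ζ‖ ^ 2 = Real.cos ζ.re ^ 2 + Real.sinh ζ.im ^ 2 := by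
  rw [Complex.sq_norm, Complex.normSq_apply, W_re, W_im]
  have h1 := Real.sin_sq_add_cos_sq ζ.re
  have h2 := Real.cosh_sq ζ.im
  nlinarith

lemma sinh_le_norm_W {ζ : ℂ} : Real.sinh ζ.im ≤ ‖W ζ‖ := by
  apply le_of_sq_le_sq _ (norm_nonneg _)
  rw [norm_W_sq]
  nlinarith [sq_nonneg (Real.cos ζ.re)]

lemma norm_W_le_cosh {ζ : ℂ} : ‖W ζ‖ ≤ Real.cosh ζ.im := by
  apply le_of_sq_le_sq _ (Real.cosh_pos _).le
  rw [norm_W_sq, Real.cosh_sq]
  nlinarith [Real.cos_sq_le_one ζ.re]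

lemma Phi_im_sq (ζ : ℂ) (t : ℝ) :
    (Phi t ζ).im ^ 2 = (Phi t ζ).re ^ 2 + t + ζ.im ^ 2 - ζ.re ^ 2 := by
  have := congrArg Complex.re (Phi_sq t ζ)
  simp only [sq, Complex.mul_re, Complex.sub_re, Complex.ofReal_re] at this
  linarith

lemma norm_G_sub_one {ζ : ℂ} (hζ : ζ ∈ Sig) : ‖G ζ - 1‖ ≤ 2 / Real.sinh ζ.im := by
  have hne := Hup_add_ne (W_mapsTo hζ)
  have h1 : G ζ - 1 = - (2 * Complex.I) / (W ζ + Complex.I) := by
    unfold G Cay
    field_simp
    ring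
  have hs : 0 < Real.sinh ζ.im := Real.sinh_pos_iff.mpr hζ.2.2
  have h2 : Real.sinh ζ.im ≤ ‖W ζ + Complex.I‖ := by
    refine sinh_le_norm_W.trans ?_
    apply le_of_sq_le_sq _ (norm_nonneg _)
    rw [Complex.sq_norm, Complex.sq_norm, Complex.normSq_apply, Complex.normSq_apply]
    have : 0 < (W ζ).im := W_mapsTo hζ
    simp
    nlinarith
  rw [h1, norm_div, norm_neg, norm_mul, Complex.norm_I, mul_one, Complex.norm_ofNat]
  gcongr

lemma denjoyWolff_phi : IsDenjoyWolff phi 1 := by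
  refine ⟨by simp, ?_⟩
  apply TendstoUniformlyOn.tendstoLocallyUniformlyOn
  rw [Metric.tendstoUniformlyOn_iff]
  intro ε hε
  have hlim : Tendsto (fun t : ℝ => √(t - Real.pi ^ 2)) atTop atTop :=
    Real.tendsto_sqrt_atTop.comp (tendsto_atTop_add_const_right _ _ tendsto_id)
  have hlim2 : Tendsto (fun t : ℝ => 2 / Real.sinh (√(t - Real.pi ^ 2))) atTop (𝓝 0) := by
    apply Tendsto.div_atTop tendsto_const_nhds
    have : Tendsto Real.sinh atTop atTop := by
      refine tendsto_atTop_mono' atTop ?_ tendsto_id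
      filter_upwards [eventually_ge_atTop 0] with x hx
      exact Real.self_le_sinh_iff.mpr hx
    exact this.comp hlim
  filter_upwards [hlim2.eventually_lt_const hε, hlim.eventually_ge_atTop 1,
    eventually_ge_atTop (Real.pi ^ 2), eventually_ge_atTop 0] with t h1 h2 h3 h4
  intro z hz
  have hF := F_mem hz
  have hP := Phi_mem hF h4
  rw [dist_comm, dist_eq_norm]
  have hge : √(t - Real.pi ^ 2) ≤ (Phi t (F z)).im := by
    rw [Real.sqrt_le_left hP.2.2.le, Phi_im_sq]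
    have : (F z).re ^ 2 ≤ Real.pi ^ 2 := by
      have := hF.1; have := hF.2.1; gcongr
    nlinarith [sq_nonneg (Phi t (F z)).re, sq_nonneg (F z).im]
  have hpos : 0 < Real.sinh (√(t - Real.pi ^ 2)) := Real.sinh_pos_iff.mpr (by linarith)
  calc ‖phi t z - 1‖ ≤ 2 / Real.sinh (Phi t (F z)).im := norm_G_sub_one hP
    _ ≤ 2 / Real.sinh (√(t - Real.pi ^ 2)) := by
        gcongr
        exact Real.sinh_le_sinh.mpr hge
    _ < ε := h1


/-! ### Distance to the diameter -/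

lemma norm_pseudo_lt {z w : ℂ} (hz : ‖z‖ < 1) (hw : ‖w‖ < 1) : ‖pseudo z w‖ < 1 := by
  have hzz : Complex.normSq z < 1 := by
    rw [← Complex.sq_norm]; have := norm_nonneg z; nlinarith
  have hww : Complex.normSq w < 1 := by
    rw [← Complex.sq_norm]; have := norm_nonneg w; nlinarith
  have hne : (1 : ℂ) - (starRingEnd ℂ) z * w ≠ 0 := by
    intro h
    have h1 : (starRingEnd ℂ) z * w = 1 := (sub_eq_zero.mp h).symm
    have h2 : ‖(starRingEnd ℂ) z * w‖ = 1 := by rw [h1]; simp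
    rw [norm_mul, RCLike.norm_conj] at h2
    have := norm_nonneg z
    have := norm_nonneg w
    nlinarith
  unfold pseudo
  rw [norm_div, div_lt_one (norm_pos_iff.mpr hne), ← sq_lt_sq₀ (norm_nonneg _) (norm_nonneg _),
    Complex.sq_norm, Complex.sq_norm]
  rw [Complex.normSq_apply] at hzz hww ⊢
  rw [Complex.normSq_apply]
  simp
  nlinarith

lemma hypDist_nonneg {z w : ℂ} (hz : ‖z‖ < 1) (hw : ‖w‖ < 1) : 0 ≤ hypDist z w := by
  unfold hypDist
  have h1 := norm_pseudo_lt hz hw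
  have h0 := norm_nonneg (pseudo z w)
  have : 0 ≤ Real.log ((1 + ‖pseudo z w‖) / (1 - ‖pseudo z w‖)) := by
    apply Real.log_nonneg
    rw [le_div_iff₀ (by linarith)]
    linarith
  positivity

lemma norm_pseudo_Cay {u : ℂ} (hu : u ∈ Hup) {y : ℝ} (hy : 0 < y) :
    ‖pseudo (Cay u) (((y - 1) / (y + 1) : ℝ) : ℂ)‖ = ‖u - y * Complex.I‖ / ‖u + y * Complex.I‖ := by
  have hne := Hup_add_ne hu
  have hy1 : ((y : ℂ) + 1) ≠ 0 := by
    have : ((y : ℂ) + 1) = ((y + 1 : ℝ) : ℂ) := by push_cast; ring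
    rw [this]; exact_mod_cast (by positivity : (0:ℝ) < y + 1).ne'
  have hcne : (starRingEnd ℂ) u - Complex.I ≠ 0 := by
    intro h
    apply hne
    have := congrArg (starRingEnd ℂ) h
    simpa using this
  have h1 : Cay u - (((y - 1) / (y + 1) : ℝ) : ℂ) = 2 * (u - y * Complex.I) / ((u + Complex.I) * (y + 1)) := by
    unfold Cay
    push_cast
    field_simp
    ring
  have h2 : 1 - (starRingEnd ℂ) (Cay u) * (((y - 1) / (y + 1) : ℝ) : ℂ) =
      2 * ((starRingEnd ℂ) u - y * Complex.I) / (((starRingEnd ℂ) u - Complex.I) * (y + 1)) := by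
    unfold Cay
    push_cast
    rw [map_div₀, map_sub, map_add, Complex.conj_I, sub_neg_eq_add, ← sub_eq_add_neg]
    field_simp
    ring
  have h3 : ‖(starRingEnd ℂ) u - y * Complex.I‖ = ‖u + y * Complex.I‖ := by
    rw [← RCLike.norm_conj]; simp
  have h4 : ‖(starRingEnd ℂ) u - Complex.I‖ = ‖u + Complex.I‖ := by
    rw [← RCLike.norm_conj]; simp
  unfold pseudo
  rw [h1, h2, norm_div, norm_div, norm_div, norm_mul, norm_mul, norm_mul, norm_mul, h3, h4]
  have n1 : ‖u + Complex.I‖ ≠ 0 := norm_ne_zero_iff.mpr hne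
  have n2 : ‖(y : ℂ) + 1‖ ≠ 0 := norm_ne_zero_iff.mpr hy1
  have n3 : ‖(2 : ℂ)‖ ≠ 0 := by simp
  have n4 : ‖u + y * Complex.I‖ ≠ 0 := by
    apply norm_ne_zero_iff.mpr
    intro h
    have := congrArg Complex.im h
    simp at this
    have hu' : 0 < u.im := hu
    linarith
  field_simp

lemma hypDist_bounds {u : ℂ} (hu : u ∈ Hup) {y : ℝ} (hy : 0 < y) :
    1 / 2 * Real.log (‖u‖ / (2 * u.im)) ≤ hypDist (Cay u) (((y - 1) / (y + 1) : ℝ) : ℂ) ∧
    (y = ‖u‖ → hypDist (Cay u) (((y - 1) / (y + 1) : ℝ) : ℂ) ≤ 1 / 2 * Real.log (4 * ‖u‖ / u.im)) := by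
  have hu' : 0 < u.im := hu
  have hupos : 0 < ‖u‖ := lt_of_lt_of_le hu' (Complex.im_le_norm u)
  set ρ := ‖pseudo (Cay u) (((y - 1) / (y + 1) : ℝ) : ℂ)‖ with hρ
  have hρe := norm_pseudo_Cay hu hy
  rw [← hρ] at hρe
  have e1 : ‖u - y * Complex.I‖ ^ 2 = ‖u‖ ^ 2 + y ^ 2 - 2 * y * u.im := by
    rw [Complex.sq_norm, Complex.sq_norm, Complex.normSq_apply, Complex.normSq_apply]
    simp; ring
  have e2 : ‖u + y * Complex.I‖ ^ 2 = ‖u‖ ^ 2 + y ^ 2 + 2 * y * u.im := by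
    rw [Complex.sq_norm, Complex.sq_norm, Complex.normSq_apply, Complex.normSq_apply]
    simp; ring
  have hyim : 0 < y * u.im := by positivity
  have hB : 0 < ‖u + y * Complex.I‖ ^ 2 := by rw [e2]; positivity
  have hρ0 : 0 ≤ ρ := norm_nonneg _
  have hρsq : 1 - ρ ^ 2 = 4 * y * u.im / ‖u + y * Complex.I‖ ^ 2 := by
    rw [hρe, div_pow, eq_div_iff hB.ne', sub_mul, div_mul_cancel₀ _ hB.ne', e1, e2]
    ring
  have hρ1 : ρ < 1 := by
    have : 0 < 1 - ρ ^ 2 := by rw [hρsq]; positivity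
    nlinarith
  have hfac : (1 + ρ) / (1 - ρ) = (1 + ρ) ^ 2 * (‖u + y * Complex.I‖ ^ 2 / (4 * y * u.im)) := by
    have h1 : (1 - ρ) ≠ 0 := by linarith
    have h2 : ‖u + y * Complex.I‖ ^ 2 / (4 * y * u.im) = (1 - ρ ^ 2)⁻¹ := by
      rw [hρsq, inv_div]
    rw [h2, show 1 - ρ ^ 2 = (1 - ρ) * (1 + ρ) by ring]
    field_simp
  constructor
  · unfold hypDist
    rw [← hρ]
    refine mul_le_mul_of_nonneg_left (Real.log_le_log (by positivity) ?_) (by norm_num)
    rw [hfac, e2]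
    have h3 : ‖u‖ / (2 * u.im) ≤ (‖u‖ ^ 2 + y ^ 2 + 2 * y * u.im) / (4 * y * u.im) := by
      rw [div_le_div_iff₀ (by positivity) (by positivity)]
      nlinarith [sq_nonneg (‖u‖ - y), mul_pos hyim hu', mul_nonneg (sq_nonneg (‖u‖ - y)) hu'.le]
    calc ‖u‖ / (2 * u.im) ≤ (‖u‖ ^ 2 + y ^ 2 + 2 * y * u.im) / (4 * y * u.im) := h3
      _ = 1 * ((‖u‖ ^ 2 + y ^ 2 + 2 * y * u.im) / (4 * y * u.im)) := (one_mul _).symm
      _ ≤ (1 + ρ) ^ 2 * ((‖u‖ ^ 2 + y ^ 2 + 2 * y * u.im) / (4 * y * u.im)) := by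
          gcongr
          nlinarith
  · intro hyu
    unfold hypDist
    rw [← hρ]
    have hpos : 0 < (1 + ρ) / (1 - ρ) := div_pos (by linarith) (by linarith)
    refine mul_le_mul_of_nonneg_left (Real.log_le_log hpos ?_) (by norm_num)
    rw [hfac, e2]
    have h3 : (‖u‖ ^ 2 + y ^ 2 + 2 * y * u.im) / (4 * y * u.im) ≤ ‖u‖ / u.im := by
      rw [div_le_div_iff₀ (by positivity) hu']
      have := Complex.im_le_norm u
      subst hyu
      nlinarith [mul_pos hupos hu', mul_pos (mul_pos hupos hupos) hu', mul_pos (mul_pos hupos hu') hu']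
    calc (1 + ρ) ^ 2 * ((‖u‖ ^ 2 + y ^ 2 + 2 * y * u.im) / (4 * y * u.im)) ≤ 4 * (‖u‖ / u.im) := by
          gcongr
          nlinarith
      _ = 4 * ‖u‖ / u.im := by ring

lemma iInf_bounds {u : ℂ} (hu : u ∈ Hup) :
    1 / 2 * Real.log (‖u‖ / (2 * u.im)) ≤
      (⨅ r : Set.Ioo (-1 : ℝ) 1, hypDist (Cay u) (((r : ℝ) : ℂ) * 1)) ∧
    (⨅ r : Set.Ioo (-1 : ℝ) 1, hypDist (Cay u) (((r : ℝ) : ℂ) * 1)) ≤
      1 / 2 * Real.log (4 * ‖u‖ / u.im) := by
  have hu' : 0 < u.im := hu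
  have hupos : 0 < ‖u‖ := lt_of_lt_of_le hu' (Complex.im_le_norm u)
  have hball : ‖Cay u‖ < 1 := by have := Cay_mem hu; rwa [mem_ball_zero_iff] at this
  constructor
  · have : Nonempty (Set.Ioo (-1 : ℝ) 1) := ⟨⟨0, by norm_num⟩⟩
    apply le_ciInf
    rintro ⟨r, hr1, hr2⟩
    have hy : 0 < (1 + r) / (1 - r) := div_pos (by linarith) (by linarith)
    have := (hypDist_bounds hu hy).1
    have e : (((1 + r) / (1 - r) - 1) / ((1 + r) / (1 - r) + 1) : ℝ) = r := by
      have : (1 - r) ≠ 0 := by linarith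
      field_simp
      ring
    rw [e] at this
    rw [mul_one]
    exact this
  · have hmem : (‖u‖ - 1) / (‖u‖ + 1) ∈ Set.Ioo (-1 : ℝ) 1 := by
      constructor
      · rw [lt_div_iff₀ (by positivity)]; linarith
      · rw [div_lt_one (by positivity)]; linarith
    have hbdd : BddBelow (Set.range fun r : Set.Ioo (-1 : ℝ) 1 => hypDist (Cay u) (((r : ℝ) : ℂ) * 1)) := by
      refine ⟨0, ?_⟩
      rintro _ ⟨⟨r, hr1, hr2⟩, rfl⟩
      apply hypDist_nonneg hball
      rw [mul_one, Complex.norm_real, Real.norm_eq_abs, abs_lt]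
      exact ⟨hr1, hr2⟩
    refine (ciInf_le hbdd ⟨_, hmem⟩).trans ?_
    rw [mul_one]
    exact (hypDist_bounds hu hupos).2 rfl

lemma F_zero : (F 0).re = Real.pi / 2 ∧ Real.sinh (F 0).im = 1 := by
  have h0 : (0 : ℂ) ∈ Metric.ball (0:ℂ) 1 := by simp
  have hF := F_mem h0
  have hW : W (F 0) = Complex.I := by
    unfold F
    rw [W_A (CayInv_mem h0)]
    simp [CayInv]
  have h1 := congrArg Complex.re hW
  have h2 := congrArg Complex.im hW
  rw [W_re, Complex.I_re, neg_eq_zero, mul_eq_zero] at h1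
  rw [W_im, Complex.I_im] at h2
  have h3 : Real.cos (F 0).re = 0 := by
    rcases h1 with h | h
    · exact h
    · exact absurd h (Real.cosh_pos _).ne'
  have h4 : (F 0).re = Real.pi / 2 := by
    have hpi := Real.pi_pos
    have := Real.injOn_cos (⟨hF.1.le, hF.2.1.le⟩ : (F 0).re ∈ Set.Icc 0 Real.pi)
      (⟨by positivity, by linarith⟩ : Real.pi / 2 ∈ Set.Icc 0 Real.pi)
      (by rw [h3, Real.cos_pi_div_two])
    exact this
  refine ⟨h4, ?_⟩
  rw [h4, Real.sin_pi_div_two, one_mul] at h2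
  exact h2

lemma speed_bounds : ∃ C : ℝ, ∀ t : ℝ, 1 ≤ t → |tangentialSpeed phi 1 t - 1 / 4 * Real.log t| ≤ C := by
  have h0 : (0 : ℂ) ∈ Metric.ball (0:ℂ) 1 := by simp
  have hF := F_mem h0
  obtain ⟨hre0, hsinh0⟩ := F_zero
  set ζ0 := F 0 with hζ0
  set b0 := ζ0.im with hb0
  have hb0pos : 0 < b0 := hF.2.2
  have hpi := Real.pi_pos
  set κ := Real.pi / 2 * b0 with hκ
  have hκpos : 0 < κ := by positivity
  set c := min (1 / 2) (b0 ^ 2 / (2 * (Real.pi / 2) ^ 2)) with hc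
  have hcpos : 0 < c := lt_min (by norm_num) (by positivity)
  have key : ∀ t : ℝ, 1 ≤ t → √c / κ * √t ≤ ‖W (Phi t ζ0)‖ / (W (Phi t ζ0)).im ∧
      ‖W (Phi t ζ0)‖ / (W (Phi t ζ0)).im ≤ Real.pi * √(1 + b0 ^ 2) / κ * √t := by
    intro t ht
    have hP := Phi_mem hF (by linarith : (0:ℝ) ≤ t)
    set a := (Phi t ζ0).re with ha
    set b := (Phi t ζ0).im with hb
    have hapos : 0 < a := hP.1
    have hbpos : 0 < b := hP.2.2
    have hale : a ≤ Real.pi / 2 := by
      have := Phi_re_le hF (by linarith : (0:ℝ) ≤ t)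
      rw [hre0] at this
      exact this
    have hab : a * b = κ := by
      have := congrArg Complex.im (Phi_sq t ζ0)
      simp only [sq, Complex.mul_im, Complex.sub_im, Complex.ofReal_im] at this
      rw [hre0] at this
      rw [hκ]
      linarith
    have hbsq : b ^ 2 = a ^ 2 + t + b0 ^ 2 - (Real.pi / 2) ^ 2 := by
      have := Phi_im_sq ζ0 t
      rw [hre0] at this
      exact this
    have hbge : b0 ≤ b := by
      by_contra hcon
      push Not at hcon
      have : a * b < Real.pi / 2 * b0 := by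
        calc a * b < a * b0 := by gcongr
          _ ≤ Real.pi / 2 * b0 := by gcongr
      rw [hab] at this
      exact lt_irrefl _ this
    have hbup : b ≤ √(1 + b0 ^ 2) * √t := by
      rw [← Real.sqrt_mul (by positivity)]
      apply Real.le_sqrt_of_sq_le
      rw [hbsq]
      have : a ^ 2 ≤ (Real.pi / 2) ^ 2 := by gcongr
      nlinarith [sq_nonneg b0]
    have hblow : √c * √t ≤ b := by
      rw [← Real.sqrt_mul hcpos.le]
      apply Real.sqrt_le_iff.mpr
      refine ⟨hbpos.le, ?_⟩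
      rcases le_or_gt (2 * (Real.pi / 2) ^ 2) t with h | h
      · have h1 : c ≤ 1 / 2 := min_le_left _ _
        rw [hbsq]
        nlinarith [sq_nonneg a, sq_nonneg b0]
      · have h1 : c ≤ b0 ^ 2 / (2 * (Real.pi / 2) ^ 2) := min_le_right _ _
        calc c * t ≤ b0 ^ 2 / (2 * (Real.pi / 2) ^ 2) * (2 * (Real.pi / 2) ^ 2) := by gcongr
          _ = b0 ^ 2 := by field_simp
          _ ≤ b ^ 2 := by gcongr
    have hsin : 0 < Real.sin a := Real.sin_pos_of_pos_of_lt_pi hapos (by linarith)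
    have hsinh : 0 < Real.sinh b := Real.sinh_pos_iff.mpr hbpos
    have hsinh1 : 1 ≤ Real.sinh b := by rw [← hsinh0]; exact Real.sinh_le_sinh.mpr hbge
    have hcosh : Real.cosh b ≤ 2 * Real.sinh b := by
      have h1 := Real.cosh_sq b
      have h2 := Real.cosh_pos b
      nlinarith
    have hWim : (W (Phi t ζ0)).im = Real.sin a * Real.sinh b := W_im _
    have hinv : b / κ = 1 / a := by
      rw [div_eq_div_iff hκpos.ne' hapos.ne', ← hab]; ring
    constructor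
    · calc √c / κ * √t = (√c * √t) / κ := by ring
        _ ≤ b / κ := by gcongr
        _ = 1 / a := hinv
        _ ≤ 1 / Real.sin a := by
            gcongr
            exact Real.sin_le hapos.le
        _ = Real.sinh b / (Real.sin a * Real.sinh b) := by field_simp
        _ ≤ ‖W (Phi t ζ0)‖ / (W (Phi t ζ0)).im := by
            rw [hWim]
            gcongr
            exact sinh_le_norm_W
    · calc ‖W (Phi t ζ0)‖ / (W (Phi t ζ0)).im ≤ (2 * Real.sinh b) / (Real.sin a * Real.sinh b) := by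
            rw [hWim]
            gcongr
            exact norm_W_le_cosh.trans hcosh
        _ = 2 / Real.sin a := by field_simp
        _ ≤ 2 / (2 / Real.pi * a) := by
            gcongr
            exact Real.mul_le_sin hapos.le hale
        _ = Real.pi * (1 / a) := by field_simp
        _ = Real.pi * (b / κ) := by rw [hinv]
        _ ≤ Real.pi * ((√(1 + b0 ^ 2) * √t) / κ) := by gcongr
        _ = Real.pi * √(1 + b0 ^ 2) / κ * √t := by ring
  set c1 := √c / κ with hc1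
  set c2 := Real.pi * √(1 + b0 ^ 2) / κ with hc2
  have hc1pos : 0 < c1 := by have := Real.sqrt_pos.mpr hcpos; positivity
  have hc2pos : 0 < c2 := by positivity
  refine ⟨|1 / 2 * Real.log (c1 / 2)| + |1 / 2 * Real.log (4 * c2)|, ?_⟩
  intro t ht
  obtain ⟨k1, k2⟩ := key t ht
  have ht0 : (0:ℝ) < t := by linarith
  have hsq : 0 < √t := Real.sqrt_pos.mpr ht0
  have hmem := W_mapsTo (Phi_mem hF (by linarith : (0:ℝ) ≤ t))
  have him : 0 < (W (Phi t ζ0)).im := hmem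
  obtain ⟨b1, b2⟩ := iInf_bounds hmem
  have hts : tangentialSpeed phi 1 t = ⨅ r : Set.Ioo (-1 : ℝ) 1, hypDist (Cay (W (Phi t ζ0))) (((r : ℝ) : ℂ) * 1) := rfl
  rw [← hts] at b1 b2
  have l1 : 1 / 2 * Real.log (c1 / 2) + 1 / 4 * Real.log t ≤ tangentialSpeed phi 1 t := by
    refine le_trans ?_ b1
    have : 1 / 2 * Real.log (c1 / 2) + 1 / 4 * Real.log t = 1 / 2 * Real.log (c1 * √t / 2) := by
      rw [show c1 * √t / 2 = (c1 / 2) * √t by ring, Real.log_mul (by positivity) hsq.ne', Real.log_sqrt ht0.le]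
      ring
    rw [this]
    refine mul_le_mul_of_nonneg_left (Real.log_le_log (by positivity) ?_) (by norm_num)
    calc c1 * √t / 2 ≤ (‖W (Phi t ζ0)‖ / (W (Phi t ζ0)).im) / 2 := by gcongr
      _ = ‖W (Phi t ζ0)‖ / (2 * (W (Phi t ζ0)).im) := by field_simp
  have l2 : tangentialSpeed phi 1 t ≤ 1 / 2 * Real.log (4 * c2) + 1 / 4 * Real.log t := by
    refine b2.trans ?_
    have : 1 / 2 * Real.log (4 * c2) + 1 / 4 * Real.log t = 1 / 2 * Real.log (4 * c2 * √t) := by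
      rw [Real.log_mul (by positivity) hsq.ne', Real.log_sqrt ht0.le]
      ring
    rw [this]
    have hnpos : 0 < ‖W (Phi t ζ0)‖ := lt_of_lt_of_le him (Complex.im_le_norm _)
    refine mul_le_mul_of_nonneg_left (Real.log_le_log (by positivity) ?_) (by norm_num)
    calc 4 * ‖W (Phi t ζ0)‖ / (W (Phi t ζ0)).im = 4 * (‖W (Phi t ζ0)‖ / (W (Phi t ζ0)).im) := by ring
      _ ≤ 4 * (c2 * √t) := by gcongr
      _ = 4 * c2 * √t := by ring
  rw [abs_le]
  have a1 := neg_abs_le (1 / 2 * Real.log (c1 / 2))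
  have a2 := le_abs_self (1 / 2 * Real.log (4 * c2))
  have a3 := abs_nonneg (1 / 2 * Real.log (c1 / 2))
  have a4 := abs_nonneg (1 / 2 * Real.log (4 * c2))
  constructor <;> linarith

/-- There is a parabolic semigroup of positive hyperbolic step whose tangential speed is
`(1/4) log t + O(1)`; in particular its tangential speed is not `(1/2) log t + O(1)`. -/
theorem result :
    ∃ (φ : ℝ → ℂ → ℂ) (τ : ℂ), IsNonEllipticSemigroup φ ∧ IsDenjoyWolff φ τ ∧
      IsParabolicPositiveStep φ ∧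
      (∃ C : ℝ, ∀ t : ℝ, 1 ≤ t → |tangentialSpeed φ τ t - 1 / 4 * Real.log t| ≤ C) ∧
      ¬ ∃ C : ℝ, 0 < C ∧ ∀ t : ℝ, 1 ≤ t → |tangentialSpeed φ τ t - 1 / 2 * Real.log t| < C := by
  refine ⟨phi, 1, semigroup_phi, denjoyWolff_phi, parabolic_phi, speed_bounds, ?_⟩
  rintro ⟨C, hC, h⟩
  obtain ⟨C', h'⟩ := speed_bounds
  have hC' : 0 ≤ C' := (abs_nonneg _).trans (h' 1 le_rfl)
  set t := Real.exp (4 * (C + C')) with ht
  have ht1 : 1 ≤ t := Real.one_le_exp (by positivity)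
  have h1 := h t ht1
  have h2 := h' t ht1
  rw [ht, Real.log_exp, ← ht] at h1 h2
  rw [abs_lt] at h1
  rw [abs_le] at h2
  linarith [h1.1, h1.2, h2.1, h2.2]

end Pool.Agent.Results.MP_ab13d2_an.TangentialSpeed
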